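import Pool.Agent.Work.MP_d87e04_lc.Defs

set_option autoImplicit false

namespace Pool.Agent.Work.MP_d87e04_lc

universe u

variable {F : Type u} {ar : F → ℕ}

open Relation

namespace Tm

@[simp] theorem subst_var (σ : ℕ → Tm F ar) (x : ℕ) : (var x : Tm F ar).subst σ = σ x := rfl

@[simp] theorem subst_app (σ : ℕ → Tm F ar) (f : F) (a : Fin (ar f) → Tm F ar) :
    (app f a).subst σ = app f fun i => (a i).subst σ := rfl

theorem subst_subst (σ τ : ℕ → Tm F ar) (t : Tm F ar) :
    (t.subst σ).subst τ = t.subst fun x => (σ x).subst τ := by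
  induction t with
  | var x => rfl
  | app f a ih => simp only [subst_app, ih]

theorem occ_le {f : F} (a : Fin (ar f) → Tm F ar) (i : Fin (ar f)) (x : ℕ) :
    (a i).occ x ≤ ∑ j, (a j).occ x :=
  Finset.single_le_sum (f := fun j => (a j).occ x) (fun _ _ => Nat.zero_le _) (Finset.mem_univ i)

theorem subst_congr {σ τ : ℕ → Tm F ar} (t : Tm F ar) (h : ∀ x, 0 < t.occ x → σ x = τ x) :
    t.subst σ = t.subst τ := by
  induction t with
  | var x => exact h x (by simp [occ])
  | app f a ih =>
    simp only [subst_app]
    congr 1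
    funext i
    refine ih i fun x hx => h x ?_
    have := occ_le a i x
    simp only [occ]
    omega

theorem occ_arg {f : F} {a : Fin (ar f) → Tm F ar} {i : Fin (ar f)} {x : ℕ}
    (h : 0 < (a i).occ x) : 0 < (app f a).occ x := by
  have := occ_le a i x
  simp only [occ]
  omega

theorem occ_app {f : F} {a : Fin (ar f) → Tm F ar} {x : ℕ}
    (h : 0 < (app f a).occ x) : ∃ i, 0 < (a i).occ x := by
  simp only [occ] at h
  by_contra hc
  push Not at hc
  have : ∑ j, (a j).occ x = 0 := Finset.sum_eq_zero fun j _ => Nat.le_zero.1 (hc j)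
  omega

theorem subst_inj {σ τ : ℕ → Tm F ar} (t : Tm F ar) (h : t.subst σ = t.subst τ) :
    ∀ x, 0 < t.occ x → σ x = τ x := by
  induction t with
  | var y =>
    intro x hx
    simp only [occ] at hx
    split at hx
    · rename_i hy; subst hy; exact h
    · exact absurd hx (lt_irrefl 0)
  | app f a ih =>
    intro x hx
    obtain ⟨i, hi⟩ := occ_app hx
    simp only [subst_app, app.injEq, heq_eq_eq, true_and] at h
    exact ih i (congrFun h i) x hi

/-- Linearity: no variable occurs twice. -/
def Linear (t : Tm F ar) : Prop := ∀ x, t.occ x ≤ 1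

theorem Linear.arg {f : F} {a : Fin (ar f) → Tm F ar} (h : (app f a).Linear) (i : Fin (ar f)) :
    (a i).Linear := by
  intro x
  have h1 := h x
  have := occ_le a i x
  simp only [occ] at h1
  omega

theorem Linear.disj {f : F} {a : Fin (ar f) → Tm F ar} (h : (app f a).Linear) {i j : Fin (ar f)}
    {x : ℕ} (hi : 0 < (a i).occ x) (hj : 0 < (a j).occ x) : i = j := by
  by_contra hne
  have h1 := h x
  simp only [occ] at h1
  have h2 : (a i).occ x + (a j).occ x ≤ ∑ k, (a k).occ x := by
    have := Finset.sum_le_sum_of_subset (f := fun k => (a k).occ x) (Finset.subset_univ ({i, j} : Finset (Fin (ar f))))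
    rwa [Finset.sum_pair hne] at this
  omega

theorem occ_ren_inj {ρ : ℕ → ℕ} (hρ : Function.Injective ρ) (t : Tm F ar) (x : ℕ) :
    (t.ren ρ).occ (ρ x) = t.occ x := by
  unfold ren
  induction t with
  | var y =>
    simp only [subst_var, occ]
    by_cases h : y = x
    · simp [h]
    · rw [if_neg h, if_neg (fun h' => h (hρ h'))]
  | app f a ih => simp only [subst_app, occ, ih]

theorem occ_ren_pos {ρ : ℕ → ℕ} (t : Tm F ar) {y : ℕ} (h : 0 < (t.ren ρ).occ y) :
    ∃ x, ρ x = y ∧ 0 < t.occ x := by
  unfold ren at h
  induction t with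
  | var z =>
    simp only [subst_var, occ] at h
    split at h
    · rename_i hz; exact ⟨z, hz, by simp [occ]⟩
    · exact absurd h (lt_irrefl 0)
  | app f a ih =>
    obtain ⟨i, hi⟩ := occ_app h
    obtain ⟨x, hx, hx'⟩ := ih i hi
    exact ⟨x, hx, occ_arg hx'⟩

theorem Linear.ren {ρ : ℕ → ℕ} (hρ : Function.Injective ρ) {t : Tm F ar} (h : t.Linear) :
    (t.ren ρ).Linear := by
  intro y
  by_contra hc
  push Not at hc
  obtain ⟨x, hx, _⟩ := occ_ren_pos t (lt_trans zero_lt_one hc)
  subst hx
  rw [occ_ren_inj hρ] at hc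
  exact absurd (h x) (not_le.2 hc)

/-- A unifiable pair of linear terms without common variables has an mgu `θ` such that every
unifier `τ` satisfies `θ; τ = τ`. -/
theorem exists_mgu (s : Tm F ar) : ∀ (t : Tm F ar), s.Linear → t.Linear →
    (∀ x, 0 < s.occ x → 0 < t.occ x → False) → (∃ τ : ℕ → Tm F ar, s.subst τ = t.subst τ) →
    ∃ θ : ℕ → Tm F ar, s.subst θ = t.subst θ ∧
      ∀ τ : ℕ → Tm F ar, s.subst τ = t.subst τ → ∀ x, (θ x).subst τ = τ x := by
  classical
  induction s with
  | var x =>
    intro t _ _ hd _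
    refine ⟨fun y => if y = x then t else var y, ?_, ?_⟩
    · simp only [subst_var, if_true]
      have : ∀ u : Tm F ar, ¬ 0 < u.occ x → u = u.subst (fun y => if y = x then t else var y) := by
        intro u
        induction u with
        | var y =>
          intro hy
          have : y ≠ x := by rintro rfl; exact hy (by simp [occ])
          simp [this]
        | app f a ih =>
          intro hy
          simp only [subst_app]
          congr 1
          funext i
          exact ih i fun h => hy (occ_arg h)
      exact this t (fun h => hd x (by simp [occ]) h)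
    · intro τ hτ y
      by_cases hy : y = x
      · subst hy; simp only [if_true]; exact hτ.symm
      · simp [hy]
  | app f a ih =>
    intro t hs ht hd hu
    cases t with
    | var x =>
      refine ⟨fun y => if y = x then app f a else var y, ?_, ?_⟩
      · have : ∀ u : Tm F ar, ¬ 0 < u.occ x →
            u.subst (fun y => if y = x then app f a else var y) = u := by
          intro u
          induction u with
          | var y =>
            intro hy
            have : y ≠ x := by rintro rfl; exact hy (by simp [occ])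
            simp [this]
          | app g b ihb =>
            intro hy
            simp only [subst_app]
            congr 1
            funext i
            exact ihb i fun h => hy (occ_arg h)
        rw [this (app f a) (fun h => hd x h (by simp [occ]))]
        simp
      · intro τ hτ y
        by_cases hy : y = x
        · subst hy; simp only [if_true]; exact hτ
        · simp [hy]
    | app g b =>
      obtain ⟨τ₀, hτ₀⟩ := hu
      simp only [subst_app, app.injEq] at hτ₀
      obtain ⟨hfg, hτ₀⟩ := hτ₀
      subst hfg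
      have hτ₀ := congrFun (eq_of_heq hτ₀)
      have key : ∀ i, ∃ θ : ℕ → Tm F ar, (a i).subst θ = (b i).subst θ ∧
          ∀ τ : ℕ → Tm F ar, (a i).subst τ = (b i).subst τ → ∀ x, (θ x).subst τ = τ x := fun i =>
        ih i (b i) (hs.arg i) (ht.arg i) (fun x h1 h2 => hd x (occ_arg h1) (occ_arg h2)) ⟨τ₀, hτ₀ i⟩
      choose θ hθ hθ' using key
      let P : ℕ → Fin (ar f) → Prop := fun x i => 0 < (a i).occ x ∨ 0 < (b i).occ x
      have hP : ∀ x i j, P x i → P x j → i = j := by
        rintro x i j (h1 | h1) (h2 | h2)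
        · exact hs.disj h1 h2
        · exact (hd x (occ_arg h1) (occ_arg h2)).elim
        · exact (hd x (occ_arg h2) (occ_arg h1)).elim
        · exact ht.disj h1 h2
      let Θ : ℕ → Tm F ar := fun x => if h : ∃ i, P x i then θ h.choose x else var x
      have hΘ : ∀ x i, P x i → Θ x = θ i x := by
        intro x i hi
        have hex : ∃ i, P x i := ⟨i, hi⟩
        have : hex.choose = i := hP x _ _ hex.choose_spec hi
        simp only [Θ, dif_pos hex, this]
      refine ⟨Θ, ?_, ?_⟩
      · simp only [subst_app]
        congr 1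
        funext i
        rw [subst_congr (a i) (fun x hx => hΘ x i (Or.inl hx)),
          subst_congr (b i) (fun x hx => hΘ x i (Or.inr hx))]
        exact hθ i
      · intro τ hτ x
        simp only [subst_app, app.injEq, heq_eq_eq, true_and] at hτ
        by_cases hex : ∃ i, P x i
        · obtain ⟨i, hi⟩ := hex
          rw [hΘ x i hi]
          exact hθ' i τ (congrFun hτ i) x
        · simp only [Θ, dif_neg hex, subst_var]

theorem subAt_subst (σ : ℕ → Tm F ar) : ∀ (t : Tm F ar) (p : List ℕ) (u : Tm F ar),
    t.subAt p = some u → (t.subst σ).subAt p = some (u.subst σ) := by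
  intro t
  induction t with
  | var x =>
    intro p u h
    cases p with
    | nil =>
      simp only [subAt, Option.some.injEq] at h
      subst h
      cases hx : (var x : Tm F ar).subst σ <;> simp [subAt, hx]
    | cons i p => simp [subAt] at h
  | app f a ih =>
    intro p u h
    cases p with
    | nil =>
      simp only [subAt, Option.some.injEq] at h
      subst h
      simp [subAt]
    | cons i p =>
      simp only [subAt] at h
      split at h
      · rename_i hi
        simp only [subst_app, subAt, hi, dif_pos]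
        exact ih ⟨i, hi⟩ p u h
      · exact absurd h (by simp)

theorem repl_subst (σ : ℕ → Tm F ar) (s : Tm F ar) : ∀ (t : Tm F ar) (p : List ℕ) (u : Tm F ar),
    t.subAt p = some u → (t.repl p s).subst σ = (t.subst σ).repl p (s.subst σ) := by
  intro t
  induction t with
  | var x =>
    intro p u h
    cases p with
    | nil =>
      cases hx : (var x : Tm F ar).subst σ <;> simp [repl]
    | cons i p => simp [subAt] at h
  | app f a ih =>
    intro p u h
    cases p with
    | nil => simp [repl]
    | cons i p =>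
      simp only [subAt] at h
      split at h
      · rename_i hi
        simp only [subst_app, repl, hi, dif_pos]
        congr 1
        funext j
        by_cases hj : j = ⟨i, hi⟩
        · subst hj
          simp only [Function.update_self]
          exact ih ⟨i, hi⟩ p u h
        · simp [Function.update_of_ne hj]
      · exact absurd h (by simp)

theorem subAt_linear : ∀ (t : Tm F ar) (p : List ℕ) (u : Tm F ar),
    t.subAt p = some u → ∀ x, u.occ x ≤ t.occ x := by
  intro t
  induction t with
  | var x =>
    intro p u h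
    cases p with
    | nil =>
      simp only [subAt, Option.some.injEq] at h
      subst h
      intro x; exact le_rfl
    | cons i p => simp [subAt] at h
  | app f a ih =>
    intro p u h
    cases p with
    | nil =>
      simp only [subAt, Option.some.injEq] at h
      subst h
      intro x; exact le_rfl
    | cons i p =>
      simp only [subAt] at h
      split at h
      · rename_i hi
        intro x
        refine (ih ⟨i, hi⟩ p u h x).trans ?_
        simp only [occ]
        exact Finset.single_le_sum (f := fun j => (a j).occ x) (fun _ _ => Nat.zero_le _) (Finset.mem_univ _)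
      · exact absurd h (by simp)

end Tm

/-- A root step. -/
def RootStep (R : Set (Rule F ar)) (x y : Tm F ar) : Prop :=
  ∃ q ∈ R, ∃ σ : ℕ → Tm F ar, x = q.1.subst σ ∧ y = q.2.subst σ

/-- A step strictly below the root. -/
def InStep (R : Set (Rule F ar)) (x y : Tm F ar) : Prop :=
  ∃ (f : F) (a : Fin (ar f) → Tm F ar) (i : Fin (ar f)) (t : Tm F ar),
    x = Tm.app f a ∧ y = Tm.app f (Function.update a i t) ∧ Step R (a i) t

/-- Many inner steps. -/
abbrev InSteps (R : Set (Rule F ar)) : Tm F ar → Tm F ar → Prop := ReflTransGen (InStep R)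

theorem step_iff {R : Set (Rule F ar)} {x y : Tm F ar} :
    Step R x y ↔ RootStep R x y ∨ InStep R x y := by
  constructor
  · intro h
    cases h with
    | root hq σ => exact Or.inl ⟨_, hq, σ, rfl, rfl⟩
    | arg a i h => exact Or.inr ⟨_, a, i, _, rfl, rfl, h⟩
  · rintro (⟨q, hq, σ, rfl, rfl⟩ | ⟨f, a, i, t, rfl, rfl, h⟩)
    · exact Step.root hq σ
    · exact Step.arg a i h

theorem RootStep.step {R : Set (Rule F ar)} {x y : Tm F ar} (h : RootStep R x y) : Step R x y :=
  step_iff.2 (Or.inl h)

theorem InStep.step {R : Set (Rule F ar)} {x y : Tm F ar} (h : InStep R x y) : Step R x y :=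
  step_iff.2 (Or.inr h)

theorem InSteps.steps {R : Set (Rule F ar)} {x y : Tm F ar} (h : InSteps R x y) : Steps R x y :=
  ReflTransGen.mono (fun _ _ => InStep.step) _ _ h

theorem Step.subst {R : Set (Rule F ar)} {x y : Tm F ar} (σ : ℕ → Tm F ar) (h : Step R x y) :
    Step R (x.subst σ) (y.subst σ) := by
  induction h with
  | root hq τ =>
    rw [Tm.subst_subst, Tm.subst_subst]
    exact Step.root hq _
  | @arg f a i t h ih =>
    simp only [Tm.subst_app]
    have : (fun j => (Function.update a i t j).subst σ) =
        Function.update (fun j => (a j).subst σ) i (t.subst σ) := by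
      funext j
      by_cases hj : j = i
      · subst hj; simp
      · simp [Function.update_of_ne hj]
    rw [this]
    exact Step.arg (fun j => (a j).subst σ) i ih

/-- `NV R P τ y`: a step from `P τ` to `y` at a non-variable position of `P`. -/
inductive NV (R : Set (Rule F ar)) : Tm F ar → (ℕ → Tm F ar) → Tm F ar → Prop
  | root {f : F} {a : Fin (ar f) → Tm F ar} {τ : ℕ → Tm F ar} {y : Tm F ar}
      (h : RootStep R ((Tm.app f a).subst τ) y) : NV R (Tm.app f a) τ y
  | arg {f : F} {a : Fin (ar f) → Tm F ar} {τ : ℕ → Tm F ar} (i : Fin (ar f)) {y : Tm F ar}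
      (h : NV R (a i) τ y) :
      NV R (Tm.app f a) τ (Tm.app f (Function.update (fun j => (a j).subst τ) i y))

theorem NV.step {R : Set (Rule F ar)} {P : Tm F ar} {τ : ℕ → Tm F ar} {y : Tm F ar}
    (h : NV R P τ y) : Step R (P.subst τ) y := by
  induction h with
  | root h => exact h.step
  | @arg f a τ i y h ih => exact Step.arg (fun j => (a j).subst τ) i ih

/-- The position of a non-variable step. -/
theorem NV.pos {R : Set (Rule F ar)} {P : Tm F ar} {τ : ℕ → Tm F ar} {y : Tm F ar}
    (h : NV R P τ y) : ∃ (p : List ℕ) (u : Tm F ar) (q : Rule F ar) (ψ : ℕ → Tm F ar),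
      P.subAt p = some u ∧ (∀ x, u ≠ Tm.var x) ∧ q ∈ R ∧ u.subst τ = q.1.subst ψ ∧
      y = (P.subst τ).repl p (q.2.subst ψ) := by
  induction h with
  | @root f a τ y h =>
    obtain ⟨q, hq, σ, h1, h2⟩ := h
    exact ⟨[], Tm.app f a, q, σ, by simp [Tm.subAt], by simp, hq, h1, by simp [Tm.repl, h2]⟩
  | @arg f a τ i y h ih =>
    obtain ⟨p, u, q, ψ, h1, h2, h3, h4, h5⟩ := ih
    refine ⟨i.1 :: p, u, q, ψ, ?_, h2, h3, h4, ?_⟩
    · simp only [Tm.subAt, i.2, dif_pos]; exact h1
    · simp only [Tm.subst_app, Tm.repl, i.2, dif_pos, h5]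

/-- A step from `P τ` is at a non-variable position of `P`, or in the value of a variable. -/
theorem step_split {R : Set (Rule F ar)} (P : Tm F ar) (τ : ℕ → Tm F ar) : ∀ {y : Tm F ar},
    Step R (P.subst τ) y → NV R P τ y ∨ ∃ x t, 0 < P.occ x ∧ Step R (τ x) t ∧
      (P.Linear → y = P.subst (Function.update τ x t)) := by
  classical
  induction P with
  | var x =>
    intro y h
    exact Or.inr ⟨x, y, by simp [Tm.occ], h, fun _ => by simp⟩
  | app f a ih =>
    intro y h
    rcases step_iff.1 h with h | ⟨g, b, i, t, h1, rfl, h3⟩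
    · exact Or.inl (NV.root h)
    · simp only [Tm.subst_app, Tm.app.injEq] at h1
      obtain ⟨hfg, h1⟩ := h1
      subst hfg
      have h1 := eq_of_heq h1
      subst h1
      rcases ih i h3 with h4 | ⟨x, s, hx, hs, hP⟩
      · exact Or.inl (NV.arg i h4)
      · refine Or.inr ⟨x, s, Tm.occ_arg hx, hs, fun hl => ?_⟩
        simp only [Tm.subst_app]
        congr 1
        funext j
        by_cases hj : j = i
        · subst hj
          simp only [Function.update_self]
          exact hP (hl.arg j)
        · rw [Function.update_of_ne hj]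
          refine Tm.subst_congr (a j) fun z hz => ?_
          have : z ≠ x := by
            rintro rfl
            exact hj (hl.disj hz hx)
          rw [Function.update_of_ne this]

/-- The overlap lemma: the only use of condition (c). -/
theorem overlap {R : Set (Rule F ar)} (hR : IsTRS R) (hL : LeftLinear R) (hC : CondC R)
    {q : Rule F ar} (hq : q ∈ R) {σ : ℕ → Tm F ar} {y : Tm F ar} (h : NV R q.1 σ y) :
    y = q.2.subst σ ∨ Step R y (q.2.subst σ) ∨ Step R (q.2.subst σ) y := by
  obtain ⟨p, u, q', ψ, h1, h2, h3, h4, h5⟩ := h.pos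
  -- rename apart
  let ρ₁ : ℕ → ℕ := fun x => 2 * x + 1
  let ρ₂ : ℕ → ℕ := fun x => 2 * x
  have i1 : Function.Injective ρ₁ := fun x y h => by simp only [ρ₁] at h; omega
  have i2 : Function.Injective ρ₂ := fun x y h => by simp only [ρ₂] at h; omega
  have i12 : ∀ x y, ρ₁ x ≠ ρ₂ y := fun x y h => by simp only [ρ₁, ρ₂] at h; omega
  let χ : ℕ → Tm F ar := fun x => if x % 2 = 0 then σ (x / 2) else ψ (x / 2)
  have hχ2 : ∀ t : Tm F ar, (t.ren ρ₂).subst χ = t.subst σ := by
    intro t
    rw [Tm.ren, Tm.subst_subst]
    refine Tm.subst_congr t fun x _ => ?_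
    simp [χ, ρ₂]
  have hχ1 : ∀ t : Tm F ar, (t.ren ρ₁).subst χ = t.subst ψ := by
    intro t
    rw [Tm.ren, Tm.subst_subst]
    refine Tm.subst_congr t fun x _ => ?_
    have : (2 * x + 1) / 2 = x := by omega
    simp [χ, ρ₁, this]
  have hu : (q.1.ren ρ₂).subAt p = some (u.ren ρ₂) := Tm.subAt_subst _ _ _ _ h1
  have hlu : u.Linear := fun x => (Tm.subAt_linear _ _ _ h1 x).trans (hL q hq x)
  obtain ⟨θ, hθ, hθ'⟩ := Tm.exists_mgu (u.ren ρ₂) (q'.1.ren ρ₁) (hlu.ren i2)
    (Tm.Linear.ren i1 (hL q' h3)) (by
      intro x hx hx'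
      obtain ⟨a, ha, _⟩ := Tm.occ_ren_pos _ hx
      obtain ⟨b, hb, _⟩ := Tm.occ_ren_pos _ hx'
      exact i12 b a (hb.trans ha.symm)) ⟨χ, by rw [hχ2, hχ1, h4]⟩
  have hun : (u.ren ρ₂).subst χ = (q'.1.ren ρ₁).subst χ := by rw [hχ2, hχ1, h4]
  have hfac : ∀ t : Tm F ar, (t.subst θ).subst χ = t.subst χ := by
    intro t
    rw [Tm.subst_subst]
    exact Tm.subst_congr t fun x _ => hθ' χ hun x
  have hnv : ∀ x, u.ren ρ₂ ≠ Tm.var x := by
    intro x
    cases u with
    | var z => exact (h2 z rfl).elim
    | app f a => simp [Tm.ren]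
  by_cases hvar : p = [] ∧ Variant q' q
  · left
    obtain ⟨hp, π, hπ1, hπ2⟩ := hvar
    subst hp
    simp only [Tm.subAt] at h1
    have hu1 : u = q.1 := by
      cases hq1 : q.1 <;> simp only [hq1, Tm.subAt, Option.some.injEq] at h1 <;> exact h1.symm
    rw [hu1, ← hπ1, Tm.ren, Tm.subst_subst] at h4
    have h6 := Tm.subst_inj _ h4
    have h7 : y = q'.2.subst ψ := by
      rw [h5]
      cases q.1.subst σ <;> rfl
    rw [h7, ← hπ2, Tm.ren, Tm.subst_subst]
    exact Tm.subst_congr _ fun x hx => (h6 x ((hR q' h3).2 x hx)).symm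
  · have hcp : CriticalPair R (((q.1.ren ρ₂).subst θ).repl p ((q'.2.ren ρ₁).subst θ))
        ((q.2.ren ρ₂).subst θ) :=
      ⟨q'.1, q'.2, q.1, q.2, h3, hq, ρ₁, ρ₂, i1, i2, i12, p, u.ren ρ₂, θ, hu, hnv,
        ⟨hθ, fun τ hτ => ⟨τ, fun x => (hθ' τ hτ x).symm⟩⟩,
        fun hp hv => hvar ⟨hp, hv⟩, rfl, rfl⟩
    have ht : (((q.1.ren ρ₂).subst θ).repl p ((q'.2.ren ρ₁).subst θ)).subst χ = y := by
      rw [Tm.repl_subst χ _ _ p _ (Tm.subAt_subst θ _ _ _ hu), hfac, hfac, hχ2, hχ1, h5]
    have hs : ((q.2.ren ρ₂).subst θ).subst χ = q.2.subst σ := by rw [hfac, hχ2]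
    rcases hC _ _ hcp with (h6 | h6) | (h6 | h6)
    · left; rw [← ht, ← hs, h6]
    · right; right
      have := h6.subst χ
      rwa [ht, hs] at this
    · left; rw [← ht, ← hs, h6]
    · right; left
      have := h6.subst χ
      rwa [ht, hs] at this

end Pool.Agent.Work.MP_d87e04_lc
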