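import Mathlib

/-!
# Terms, rewriting, critical pairs

Definitions used by the hand-in `MP_d87e04_lc.NoInfiniteNesting`.
-/

set_option autoImplicit false

namespace Pool.Agent.Work.MP_d87e04_lc

universe u

/-- Terms over a signature `F` of function symbols with arities `ar`; the variables are the
natural numbers. -/
inductive Tm (F : Type u) (ar : F → ℕ) : Type u
  | var : ℕ → Tm F ar
  | app : (f : F) → (Fin (ar f) → Tm F ar) → Tm F ar

variable {F : Type u} {ar : F → ℕ}

namespace Tm

/-- Simultaneous substitution. -/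
def subst (σ : ℕ → Tm F ar) : Tm F ar → Tm F ar
  | var x => σ x
  | app f a => app f fun i => (a i).subst σ

/-- Renaming of variables. -/
def ren (ρ : ℕ → ℕ) (t : Tm F ar) : Tm F ar := t.subst fun x => var (ρ x)

/-- The number of occurrences of the variable `x`. -/
def occ (x : ℕ) : Tm F ar → ℕ
  | var y => if y = x then 1 else 0
  | app _ a => ∑ i, (a i).occ x

/-- The subterm at a position (a list of argument indices), if the position exists. -/
def subAt : Tm F ar → List ℕ → Option (Tm F ar)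
  | t, [] => some t
  | var _, _ :: _ => none
  | app f a, i :: p => if h : i < ar f then (a ⟨i, h⟩).subAt p else none

/-- Replacement of the subterm at a position. -/
def repl : Tm F ar → List ℕ → Tm F ar → Tm F ar
  | _, [], s => s
  | var x, _ :: _, _ => var x
  | app f a, i :: p, s =>
      if h : i < ar f then app f (Function.update a ⟨i, h⟩ ((a ⟨i, h⟩).repl p s)) else app f a

/-- `s` is an immediate subterm (an argument) of `t`. -/
def IsArg (s t : Tm F ar) : Prop := ∃ (f : F) (a : Fin (ar f) → Tm F ar) (i : Fin (ar f)),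
  t = app f a ∧ s = a i

/-- `s` is a proper subterm of `t`. -/
def ProperSub : Tm F ar → Tm F ar → Prop := Relation.TransGen IsArg

end Tm

/-- A rule `l → r`, as the pair `(l, r)`. -/
abbrev Rule (F : Type u) (ar : F → ℕ) := Tm F ar × Tm F ar

/-- `R` is a term rewriting system: no left-hand side is a variable, and every variable of a
right-hand side occurs in the left-hand side. -/
def IsTRS (R : Set (Rule F ar)) : Prop :=
  ∀ q ∈ R, (∀ x, q.1 ≠ Tm.var x) ∧ ∀ x, 0 < q.2.occ x → 0 < q.1.occ x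

/-- No variable occurs twice in a left-hand side. -/
def LeftLinear (R : Set (Rule F ar)) : Prop := ∀ q ∈ R, ∀ x, q.1.occ x ≤ 1

/-- The rewrite relation `C[lσ] → C[rσ]`. -/
inductive Step (R : Set (Rule F ar)) : Tm F ar → Tm F ar → Prop
  | root {q : Rule F ar} (hq : q ∈ R) (σ : ℕ → Tm F ar) : Step R (q.1.subst σ) (q.2.subst σ)
  | arg {f : F} (a : Fin (ar f) → Tm F ar) (i : Fin (ar f)) {t : Tm F ar}
      (h : Step R (a i) t) : Step R (Tm.app f a) (Tm.app f (Function.update a i t))

/-- Many-step rewriting. -/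
abbrev Steps (R : Set (Rule F ar)) : Tm F ar → Tm F ar → Prop := Relation.ReflTransGen (Step R)

/-- Confluence. -/
def Confluent (R : Set (Rule F ar)) : Prop :=
  ∀ a b c, Steps R a b → Steps R a c → ∃ e, Steps R b e ∧ Steps R c e

/-- `θ` is a most general unifier of `s` and `t`. -/
def IsMGU (θ : ℕ → Tm F ar) (s t : Tm F ar) : Prop :=
  s.subst θ = t.subst θ ∧
    ∀ τ : ℕ → Tm F ar, s.subst τ = t.subst τ → ∃ δ : ℕ → Tm F ar, ∀ x, τ x = (θ x).subst δ

/-- The two rules are the same rule up to a renaming of variables. -/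
def Variant (q q' : Rule F ar) : Prop :=
  ∃ π : Equiv.Perm ℕ, q.1.ren π = q'.1 ∧ q.2.ren π = q'.2

/-- `t ≈ s` is a critical pair of `R`: `l → r` (renamed by `ρ₁`) is the inner rule, `g → d`
(renamed by `ρ₂`) is the outer rule, `p` is a non-variable position of `g`. -/
def CriticalPair (R : Set (Rule F ar)) (t s : Tm F ar) : Prop :=
  ∃ (l r g d : Tm F ar) (_ : (l, r) ∈ R) (_ : (g, d) ∈ R) (ρ₁ ρ₂ : ℕ → ℕ)
    (_ : Function.Injective ρ₁) (_ : Function.Injective ρ₂) (_ : ∀ x y, ρ₁ x ≠ ρ₂ y)
    (p : List ℕ) (u : Tm F ar) (θ : ℕ → Tm F ar),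
    (g.ren ρ₂).subAt p = some u ∧ (∀ x, u ≠ Tm.var x) ∧ IsMGU θ u (l.ren ρ₁) ∧
    (p = [] → ¬ Variant (l, r) (g, d)) ∧
    t = ((g.ren ρ₂).subst θ).repl p ((r.ren ρ₁).subst θ) ∧ s = (d.ren ρ₂).subst θ

/-- Condition (c): `s →⁼ t` or `t →⁼ s` for every critical pair `t ≈ s`. -/
def CondC (R : Set (Rule F ar)) : Prop :=
  ∀ t s, CriticalPair R t s → (s = t ∨ Step R s t) ∨ (t = s ∨ Step R t s)

/-- `N` is a proper subterm of a reduct of `b`. -/
def Below (R : Set (Rule F ar)) (N b : Tm F ar) : Prop := ∃ b', Steps R b b' ∧ N.ProperSub b'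

end Pool.Agent.Work.MP_d87e04_lc
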