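import Pool.Agent.Work.MP_d87e04_lc.Basic

set_option autoImplicit false

namespace Pool.Agent.Work.MP_d87e04_lc

universe u

variable {F : Type u} {ar : F → ℕ}

open Relation

namespace Tm

theorem finite_occ (t : Tm F ar) : {x | 0 < t.occ x}.Finite := by
  induction t with
  | var y =>
    refine (Set.finite_singleton y).subset fun x hx => ?_
    simp only [occ, Set.mem_ofPred_eq] at hx
    split at hx
    · rename_i h; exact h.symm
    · exact absurd hx (lt_irrefl 0)
  | app f a ih =>
    refine (Set.finite_iUnion ih).subset fun x hx => ?_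
    obtain ⟨i, hi⟩ := occ_app hx
    exact Set.mem_iUnion.2 ⟨i, hi⟩

/-- Linearisation. -/
theorem exists_linear (r : Tm F ar) : ∃ (P : Tm F ar) (π : ℕ → ℕ), P.Linear ∧ r = P.ren π ∧
    ((∀ x, r ≠ var x) → ∀ x, P ≠ var x) := by
  induction r with
  | var x =>
    refine ⟨var 0, fun _ => x, ?_, rfl, fun h => (h x rfl).elim⟩
    intro y; simp only [occ]; split <;> omega
  | app f a ih =>
    choose P π hP hr _ using ih
    refine ⟨app f fun i => (P i).ren fun x => Nat.pair i x, fun y => if h : (Nat.unpair y).1 < ar f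
      then π ⟨_, h⟩ (Nat.unpair y).2 else 0, ?_, ?_, fun _ x => by simp⟩
    · intro y
      simp only [occ]
      have hinj : ∀ i : Fin (ar f), Function.Injective (fun x : ℕ => Nat.pair (i : ℕ) x) := by
        intro i x z h
        have := congrArg Nat.unpair h
        simpa using this
      have hz : ∀ i : Fin (ar f), (i : ℕ) ≠ (Nat.unpair y).1 →
          ((P i).ren fun x => Nat.pair i x).occ y = 0 := by
        intro i hi
        by_contra hc
        obtain ⟨x, hx, _⟩ := occ_ren_pos _ (Nat.pos_of_ne_zero hc)
        apply hi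
        rw [← hx]; simp
      by_cases h : (Nat.unpair y).1 < ar f
      · rw [Finset.sum_eq_single ⟨_, h⟩]
        · exact (hP _).ren (hinj _) y
        · intro i _ hi
          exact hz i fun h' => hi (Fin.ext h')
        · intro h'; exact (h' (Finset.mem_univ _)).elim
      · rw [Finset.sum_eq_zero]
        · omega
        · intro i _
          exact hz i fun h' => h (h' ▸ i.2)
    · simp only [ren, subst_app, app.injEq, heq_eq_eq, true_and]
      funext i
      rw [hr i, ren, subst_subst]
      refine subst_congr _ fun x _ => ?_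
      simp [i.2]

theorem occ_sub (P : Tm F ar) (τ : ℕ → Tm F ar) : ∀ x, 0 < P.occ x →
    (P = var x) ∨ (τ x).ProperSub (P.subst τ) := by
  induction P with
  | var y =>
    intro x hx
    simp only [occ] at hx
    split at hx
    · rename_i h; exact Or.inl (by rw [h])
    · exact absurd hx (lt_irrefl 0)
  | app f a ih =>
    intro x hx
    obtain ⟨i, hi⟩ := occ_app hx
    right
    have h1 : IsArg ((a i).subst τ) ((app f a).subst τ) := ⟨f, fun j => (a j).subst τ, i, rfl, rfl⟩
    rcases ih i x hi with h | h
    · rw [h] at h1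
      exact TransGen.single h1
    · exact h.tail h1

end Tm

section steps

variable {R : Set (Rule F ar)}

theorem insteps_app {f : F} {a a' : Fin (ar f) → Tm F ar} (h : ∀ i, Steps R (a i) (a' i)) :
    InSteps R (Tm.app f a) (Tm.app f a') := by
  classical
  have key : ∀ s : Finset (Fin (ar f)), InSteps R (Tm.app f a)
      (Tm.app f fun i => if i ∈ s then a' i else a i) := by
    intro s
    induction s using Finset.induction_on with
    | empty => simp only [Finset.notMem_empty, if_false]; exact ReflTransGen.refl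
    | insert j s hj ih =>
      refine ih.trans ?_
      have h1 : ∀ t, Steps R (a j) t → InSteps R (Tm.app f fun i => if i ∈ s then a' i else a i)
          (Tm.app f (Function.update (fun i => if i ∈ s then a' i else a i) j t)) := by
        intro t ht
        induction ht with
        | refl =>
          have : Function.update (fun i => if i ∈ s then a' i else a i) j (a j) =
              fun i => if i ∈ s then a' i else a i := by
            funext i
            by_cases hi : i = j
            · subst hi; simp [hj]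
            · simp [Function.update_of_ne hi]
          rw [this]
        | tail _ hbc ihh =>
          refine ihh.tail ⟨f, _, j, _, rfl, ?_, by rw [Function.update_self]; exact hbc⟩
          simp
      convert h1 (a' j) (h j) using 2
      funext i
      by_cases hi : i = j
      · subst hi; simp
      · simp [Function.update_of_ne hi, Finset.mem_insert, hi]
  simpa using key Finset.univ

theorem insteps_inv {f : F} {a : Fin (ar f) → Tm F ar} {y : Tm F ar}
    (h : InSteps R (Tm.app f a) y) : ∃ a', y = Tm.app f a' ∧ ∀ i, Steps R (a i) (a' i) := by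
  induction h with
  | refl => exact ⟨a, rfl, fun _ => ReflTransGen.refl⟩
  | tail _ hbc ih =>
    obtain ⟨a', rfl, ha'⟩ := ih
    obtain ⟨g, b, i, t, h1, rfl, h3⟩ := hbc
    simp only [Tm.app.injEq] at h1
    obtain ⟨hfg, h1⟩ := h1
    subst hfg
    have h1 := eq_of_heq h1
    subst h1
    refine ⟨Function.update a' i t, rfl, fun j => ?_⟩
    by_cases hj : j = i
    · subst hj; rw [Function.update_self]; exact (ha' j).tail h3
    · rw [Function.update_of_ne hj]; exact ha' j

theorem insteps_var {x : ℕ} {y : Tm F ar} (h : InSteps R (Tm.var x) y) : y = Tm.var x := by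
  induction h with
  | refl => rfl
  | tail _ hbc ih =>
    subst ih
    obtain ⟨g, b, i, t, h1, _, _⟩ := hbc
    exact absurd h1 (by simp)

theorem subst_steps {P : Tm F ar} {τ τ' : ℕ → Tm F ar}
    (h : ∀ x, 0 < P.occ x → Steps R (τ x) (τ' x)) : Steps R (P.subst τ) (P.subst τ') := by
  induction P with
  | var x => exact h x (by simp [Tm.occ])
  | app f a ih => exact (insteps_app fun i => ih i fun x hx => h x (Tm.occ_arg hx)).steps

theorem subst_insteps {P : Tm F ar} (hP : ∀ x, P ≠ Tm.var x) {τ τ' : ℕ → Tm F ar}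
    (h : ∀ x, 0 < P.occ x → Steps R (τ x) (τ' x)) : InSteps R (P.subst τ) (P.subst τ') := by
  cases P with
  | var x => exact (hP x rfl).elim
  | app f a => exact insteps_app fun i => subst_steps fun x hx => h x (Tm.occ_arg hx)

end steps

/-- The rank eventually drops when the values of the variables of `P` are moved. -/
def First (R : Set (Rule F ar)) (ρ : Tm F ar → Ordinal.{u}) (P : Tm F ar) (τ : ℕ → Tm F ar) :
    Prop :=
  ∃ τ' : ℕ → Tm F ar, (∀ x, 0 < P.occ x → Steps R (τ x) (τ' x)) ∧
    ∀ τ'' : ℕ → Tm F ar, (∀ x, 0 < P.occ x → Steps R (τ' x) (τ'' x)) →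
      ρ (P.subst τ'') < ρ (P.subst τ)

/-- The rank does not increase when the values of the variables of `P` are moved. -/
def Stay (R : Set (Rule F ar)) (ρ : Tm F ar → Ordinal.{u}) (P : Tm F ar) (τ : ℕ → Tm F ar) :
    Prop :=
  ∀ τ' : ℕ → Tm F ar, (∀ x, 0 < P.occ x → Steps R (τ x) (τ' x)) →
      ρ (P.subst τ') ≤ ρ (P.subst τ)

/-- `ρ` is a rank function on the reducts of `b` for the target `v`. -/
structure IsRank (R : Set (Rule F ar)) (b v : Tm F ar) (ρ : Tm F ar → Ordinal.{u}) : Prop where
  zero : ∀ w, Steps R b w → (ρ w = 0 ↔ Steps R v w)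
  alt : ∀ (P : Tm F ar) (τ : ℕ → Tm F ar), P.Linear → Steps R b (P.subst τ) →
    ρ (P.subst τ) ≠ 0 → First R ρ P τ ∨
      (Stay R ρ P τ ∧ ∃ y, NV R P τ y ∧ ρ y < ρ (P.subst τ))

/-- `b` is good. -/
def Good (R : Set (Rule F ar)) (b : Tm F ar) : Prop := ∀ v, Steps R b v → ∃ ρ, IsRank R b v ρ

theorem Good.join {R : Set (Rule F ar)} {b : Tm F ar} (hb : Good R b) {v w : Tm F ar}
    (hv : Steps R b v) (hw : Steps R b w) : ∃ e, Steps R v e ∧ Steps R w e := by
  obtain ⟨ρ, hρ⟩ := hb v hv
  have key : ∀ (α : Ordinal.{u}) (w : Tm F ar), Steps R b w → ρ w = α →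
      ∃ e, Steps R v e ∧ Steps R w e := by
    intro α
    induction α using WellFoundedLT.induction with
    | ind α ih =>
      intro w hw hα
      by_cases h0 : ρ w = 0
      · exact ⟨w, (hρ.zero w hw).1 h0, ReflTransGen.refl⟩
      · have hlin : (Tm.var 0 : Tm F ar).Linear := by
          intro y; simp only [Tm.occ]; split <;> omega
        rcases hρ.alt (Tm.var 0) (fun _ => w) hlin hw h0 with ⟨τ', h1, h2⟩ | ⟨_, y, hy, _⟩
        · have h3 := h2 τ' fun x _ => ReflTransGen.refl
          have h4 : Steps R w (τ' 0) := h1 0 (by simp [Tm.occ])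
          simp only [Tm.subst_var] at h3
          obtain ⟨e, he, he'⟩ := ih (ρ (τ' 0)) (hα ▸ h3) (τ' 0) (hw.trans h4) rfl
          exact ⟨e, he, h4.trans he'⟩
        · cases hy
  exact key _ w hw rfl

/-- Common reducts of finitely many reducts. -/
theorem Good.common {R : Set (Rule F ar)} {b : Tm F ar} (hb : Good R b) {ι : Type*}
    {S : Set ι} (hS : S.Finite) (g : ι → Tm F ar) (hg : ∀ i ∈ S, Steps R b (g i)) :
    ∃ e, Steps R b e ∧ ∀ i ∈ S, Steps R (g i) e := by
  classical
  induction S, hS using Set.Finite.induction_on with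
  | empty => exact ⟨b, ReflTransGen.refl, fun i hi => hi.elim⟩
  | @insert i S _ _ ih =>
    obtain ⟨e, he, he'⟩ := ih fun j hj => hg j (Set.mem_insert_of_mem _ hj)
    obtain ⟨e', h1, h2⟩ := hb.join he (hg i (Set.mem_insert _ _))
    refine ⟨e', he.trans h1, ?_⟩
    rintro j (rfl | hj)
    · exact h2
    · exact (he' j hj).trans h1

/-- Inner rank function on the inner reducts of `c` for the target `t`. -/
structure IsInRank (R : Set (Rule F ar)) (c t : Tm F ar) (ρ : Tm F ar → Ordinal.{u}) :
    Prop where
  zero : ∀ w, InSteps R c w → (ρ w = 0 ↔ InSteps R t w)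
  alt : ∀ (P : Tm F ar) (τ : ℕ → Tm F ar), P.Linear → (∀ x, P ≠ Tm.var x) →
    InSteps R c (P.subst τ) → ρ (P.subst τ) ≠ 0 → First R ρ P τ ∨
      (Stay R ρ P τ ∧ ∃ y, NV R P τ y ∧ InStep R (P.subst τ) y ∧ ρ y < ρ (P.subst τ))

/-- The arguments of a term with head `f`. -/
noncomputable def argsOf (f : F) (t : Tm F ar) : Fin (ar f) → Tm F ar := by
  classical
  exact if h : ∃ a : Fin (ar f) → Tm F ar, t = Tm.app f a then h.choose else fun _ => Tm.var 0

theorem argsOf_app (f : F) (a : Fin (ar f) → Tm F ar) : argsOf f (Tm.app f a) = a := by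
  have h : ∃ a' : Fin (ar f) → Tm F ar, Tm.app f a = Tm.app f a' := ⟨a, rfl⟩
  unfold argsOf
  rw [dif_pos h]
  exact (eq_of_heq (Tm.app.inj h.choose_spec).2).symm

/-- The lexicographic comparison of tuples. -/
def TupleLT {n : ℕ} (x y : Fin n → Ordinal.{u}) : Prop :=
  Pi.Lex (· < ·) (fun {_} => (· < ·)) x y

theorem tupleLT_wf (n : ℕ) : WellFounded (TupleLT.{u} (n := n)) :=
  Pi.Lex.wellFounded (α := fun _ : Fin n => Ordinal.{u}) (· < ·) (fun _ => wellFounded_lt)

theorem tupleLT_of_le {n : ℕ} {x y : Fin n → Ordinal.{u}} (h : ∀ i, x i ≤ y i)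
    (h' : ∃ i, x i < y i) : TupleLT x y := by
  classical
  have hne : (Finset.univ.filter fun i => x i < y i).Nonempty := by
    obtain ⟨i, hi⟩ := h'
    exact ⟨i, by simp [hi]⟩
  let i := (Finset.univ.filter fun i => x i < y i).min' hne
  have hi : x i < y i := by
    have := Finset.min'_mem _ hne
    simp only [Finset.mem_filter, Finset.mem_univ, true_and] at this
    exact this
  refine ⟨i, fun j hj => ?_, hi⟩
  by_contra hc
  have : i ≤ j := Finset.min'_le _ _ (by simp [lt_of_le_of_ne (h j) hc])
  exact absurd hj (not_lt.2 this)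

theorem TupleLT.trans_le {n : ℕ} {x y z : Fin n → Ordinal.{u}} (h : TupleLT x y)
    (h' : ∀ i, y i ≤ z i) : TupleLT x z := by
  classical
  by_cases he : y = z
  · rwa [← he]
  · obtain ⟨i, hi1, hi2⟩ := h
    have : ∃ j, y j < z j := by
      by_contra hc
      push Not at hc
      exact he (funext fun j => le_antisymm (h' j) (hc j))
    obtain ⟨j, hj1, hj2⟩ := tupleLT_of_le h' this
    rcases lt_trichotomy i j with hij | hij | hij
    · exact ⟨i, fun k hk => (hi1 k hk).trans (hj1 k (lt_trans hk hij)), by rw [← hj1 i hij]; exact hi2⟩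
    · subst hij
      exact ⟨i, fun k hk => (hi1 k hk).trans (hj1 k hk), hi2.trans hj2⟩
    · exact ⟨j, fun k hk => (hi1 k (lt_trans hk hij)).trans (hj1 k hk), by rw [hi1 j hij]; exact hj2⟩

/-- The rank of terms by tuples of ordinals. -/
theorem exists_tupleRank {n : ℕ} (A : Tm F ar → Fin n → Ordinal.{u}) :
    ∃ ρ : Tm F ar → Ordinal.{u},
      (∀ w w', (∀ i, A w' i ≤ A w i) → ρ w' ≤ ρ w) ∧
      (∀ w w', (∀ i, A w' i ≤ A w i) → (∃ i, A w' i < A w i) → ρ w' < ρ w) ∧
      (∀ t, (∀ i, A t i = 0) → ∀ w, ρ w = 0 ↔ ∀ i, A w i = 0) := by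
  let rel : Tm F ar → Tm F ar → Prop := fun w' w => TupleLT (A w') (A w)
  have : IsWellFounded (Tm F ar) rel := ⟨InvImage.wf A (tupleLT_wf n)⟩
  have hle : ∀ w w', (∀ i, A w' i ≤ A w i) → IsWellFounded.rank rel w' ≤ IsWellFounded.rank rel w := by
    intro w w' h
    rw [IsWellFounded.rank_eq rel w']
    refine Ordinal.iSup_le fun b => ?_
    exact Order.succ_le_of_lt (IsWellFounded.rank_lt_of_rel (b.2.trans_le h))
  have hlt : ∀ w w', (∀ i, A w' i ≤ A w i) → (∃ i, A w' i < A w i) →
      IsWellFounded.rank rel w' < IsWellFounded.rank rel w := fun w w' h h' =>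
    IsWellFounded.rank_lt_of_rel (tupleLT_of_le h h')
  refine ⟨IsWellFounded.rank rel, hle, hlt, fun t ht w => ⟨fun h => ?_, fun h => ?_⟩⟩
  · by_contra hc
    push Not at hc
    obtain ⟨i, hi⟩ := hc
    have := hlt w t (fun j => by rw [ht j]; exact zero_le)
      ⟨i, by rw [ht i]; exact pos_iff_ne_zero.2 hi⟩
    rw [h] at this
    exact absurd this (not_lt.2 (zero_le))
  · rw [IsWellFounded.rank_eq rel w]
    refine le_antisymm (Ordinal.iSup_le fun b => ?_) (zero_le)
    obtain ⟨i, _, hi⟩ := b.2
    rw [h i] at hi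
    exact absurd hi (not_lt.2 (zero_le))

theorem exists_inRank {R : Set (Rule F ar)} {c t : Tm F ar}
    (hc : ∀ a : Tm F ar, a.IsArg c → Good R a) (ht : InSteps R c t) : ∃ ρ, IsInRank R c t ρ := by
  classical
  cases c with
  | var x =>
    have := insteps_var ht
    subst this
    refine ⟨fun _ => 0, ⟨fun w hw => ?_, fun P τ _ _ _ h => (h rfl).elim⟩⟩
    simp only [true_iff]
    exact hw
  | app f a =>
    obtain ⟨a', rfl, ha'⟩ := insteps_inv ht
    have hG : ∀ i, Good R (a i) := fun i => hc _ ⟨f, a, i, rfl, rfl⟩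
    choose r hr using fun i => hG i (a' i) (ha' i)
    obtain ⟨ρ, hle, hlt, hz⟩ := exists_tupleRank (fun w i => r i (argsOf f w i))
    have hz' := hz (Tm.app f a') (fun i => by
      rw [argsOf_app]
      exact ((hr i).zero _ (ha' i)).2 ReflTransGen.refl)
    have hle' : ∀ b b' : Fin (ar f) → Tm F ar, (∀ i, r i (b' i) ≤ r i (b i)) →
        ρ (Tm.app f b') ≤ ρ (Tm.app f b) := by
      intro b b' h
      refine hle _ _ fun i => ?_
      simp only [argsOf_app]; exact h i
    have hlt' : ∀ b b' : Fin (ar f) → Tm F ar, (∀ i, r i (b' i) ≤ r i (b i)) →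
        (∃ i, r i (b' i) < r i (b i)) → ρ (Tm.app f b') < ρ (Tm.app f b) := by
      intro b b' h h'
      refine hlt _ _ (fun i => ?_) ?_
      · simp only [argsOf_app]; exact h i
      · simp only [argsOf_app]; exact h'
    have hz'' : ∀ b : Fin (ar f) → Tm F ar, ρ (Tm.app f b) = 0 ↔ ∀ i, r i (b i) = 0 := by
      intro b
      rw [hz']
      simp only [argsOf_app]
    refine ⟨ρ, ⟨fun w hw => ?_, fun P τ hP hPv hw h0 => ?_⟩⟩
    · obtain ⟨b, rfl, hb⟩ := insteps_inv hw
      rw [hz'']
      constructor
      · intro h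
        exact insteps_app fun i => ((hr i).zero _ (hb i)).1 (h i)
      · intro h i
        obtain ⟨b', hb', hb''⟩ := insteps_inv h
        simp only [Tm.app.injEq, heq_eq_eq, true_and] at hb'
        subst hb'
        exact ((hr i).zero _ (hb i)).2 (hb'' i)
    · cases P with
      | var x => exact (hPv x rfl).elim
      | app g p =>
        obtain ⟨b, hb1, hb2⟩ := insteps_inv hw
        simp only [Tm.subst_app, Tm.app.injEq] at hb1
        obtain ⟨hgf, hb1⟩ := hb1
        subst hgf
        have hb1 := eq_of_heq hb1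
        subst hb1
        -- a component of rank zero keeps rank zero
        have hstay0 : ∀ i, r i ((p i).subst τ) = 0 → Stay R (r i) (p i) τ := by
          intro i hi τ' hτ'
          have h1 := ((hr i).zero _ (hb2 i)).1 hi
          have h2 : Steps R ((p i).subst τ) ((p i).subst τ') := subst_steps hτ'
          rw [hi, ((hr i).zero _ ((hb2 i).trans h2)).2 (h1.trans h2)]
        by_cases hF : ∃ i, r i ((p i).subst τ) ≠ 0 ∧ First R (r i) (p i) τ
        · left
          have hch : ∀ i, ∃ τ' : ℕ → Tm F ar, (∀ x, 0 < (p i).occ x → Steps R (τ x) (τ' x)) ∧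
              ∀ τ'' : ℕ → Tm F ar, (∀ x, 0 < (p i).occ x → Steps R (τ' x) (τ'' x)) →
                (r i ((p i).subst τ'') ≤ r i ((p i).subst τ) ∧
                  (r i ((p i).subst τ) ≠ 0 → First R (r i) (p i) τ →
                    r i ((p i).subst τ'') < r i ((p i).subst τ))) := by
            intro i
            by_cases hi : r i ((p i).subst τ) = 0
            · exact ⟨τ, fun _ _ => ReflTransGen.refl, fun τ'' h => ⟨hstay0 i hi τ'' h,
                fun h' => (h' hi).elim⟩⟩
            · by_cases hFi : First R (r i) (p i) τ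
              · obtain ⟨τ', h1, h2⟩ := hFi
                exact ⟨τ', h1, fun τ'' h => ⟨(h2 τ'' h).le, fun _ _ => h2 τ'' h⟩⟩
              · rcases (hr i).alt (p i) τ (hP.arg i) (hb2 i) hi with h | ⟨h, _⟩
                · exact (hFi h).elim
                · exact ⟨τ, fun _ _ => ReflTransGen.refl, fun τ'' h' => ⟨h τ'' h',
                    fun _ h'' => (hFi h'').elim⟩⟩
          choose T hT1 hT2 using hch
          let τ' : ℕ → Tm F ar := fun x => if h : ∃ i, 0 < (p i).occ x then T h.choose x else τ x
          have hτ' : ∀ i x, 0 < (p i).occ x → τ' x = T i x := by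
            intro i x hx
            have hex : ∃ i, 0 < (p i).occ x := ⟨i, hx⟩
            have : hex.choose = i := hP.disj hex.choose_spec hx
            simp only [τ', dif_pos hex, this]
          refine ⟨τ', fun x hx => ?_, fun τ'' h => ?_⟩
          · obtain ⟨i, hi⟩ := Tm.occ_app hx
            rw [hτ' i x hi]
            exact hT1 i x hi
          · simp only [Tm.subst_app]
            have h3 : ∀ i x, 0 < (p i).occ x → Steps R (T i x) (τ'' x) := by
              intro i x hx
              rw [← hτ' i x hx]
              exact h x (Tm.occ_arg hx)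
            obtain ⟨i, hi, hFi⟩ := hF
            exact hlt' _ _ (fun j => (hT2 j τ'' (h3 j)).1) ⟨i, (hT2 i τ'' (h3 i)).2 hi hFi⟩
        · right
          push Not at hF
          have hstay : ∀ i, Stay R (r i) (p i) τ := by
            intro i
            by_cases hi : r i ((p i).subst τ) = 0
            · exact hstay0 i hi
            · rcases (hr i).alt (p i) τ (hP.arg i) (hb2 i) hi with h | ⟨h, _⟩
              · exact (hF i hi h).elim
              · exact h
          refine ⟨fun τ' h => ?_, ?_⟩
          · simp only [Tm.subst_app]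
            exact hle' _ _ fun i => hstay i τ' fun x hx => h x (Tm.occ_arg hx)
          · simp only [Tm.subst_app] at h0
            rw [Ne, hz''] at h0
            push Not at h0
            obtain ⟨i, hi⟩ := h0
            rcases (hr i).alt (p i) τ (hP.arg i) (hb2 i) hi with h | ⟨_, y, hy, hy'⟩
            · exact (hF i hi h).elim
            · refine ⟨_, NV.arg i hy, ⟨g, fun j => (p j).subst τ, i, y, rfl, rfl, hy.step⟩, ?_⟩
              simp only [Tm.subst_app]
              refine hlt' _ _ (fun j => ?_) ⟨i, ?_⟩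
              · by_cases hj : j = i
                · subst hj; rw [Function.update_self]; exact hy'.le
                · rw [Function.update_of_ne hj]
              · rw [Function.update_self]; exact hy'

end Pool.Agent.Work.MP_d87e04_lc
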