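import Pool.Agent.Work.MP_d87e04_lc.Good

set_option autoImplicit false

namespace Pool.Agent.Work.MP_d87e04_lc

universe u

variable {F : Type u} {ar : F → ℕ}

open Relation

/-- Joinability. -/
def J (R : Set (Rule F ar)) (x y : Tm F ar) : Prop := ∃ e, Steps R x e ∧ Steps R y e

theorem J.symm {R : Set (Rule F ar)} {x y : Tm F ar} (h : J R x y) : J R y x := by
  obtain ⟨e, h1, h2⟩ := h; exact ⟨e, h2, h1⟩

theorem J.of_steps {R : Set (Rule F ar)} {x y : Tm F ar} (h : Steps R x y) : J R x y :=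
  ⟨y, h, ReflTransGen.refl⟩

section below

variable {R : Set (Rule F ar)} {b : Tm F ar}

theorem properSub_red {N t : Tm F ar} (h : N.ProperSub t) : ∀ {N' : Tm F ar}, Steps R N N' →
    ∃ t', Steps R t t' ∧ N'.ProperSub t' := by
  have harg : ∀ {N t : Tm F ar}, N.IsArg t → ∀ {N' : Tm F ar}, Steps R N N' →
      ∃ t', Steps R t t' ∧ N'.IsArg t' := by
    rintro N t ⟨f, a, i, rfl, rfl⟩ N' hN
    classical
    refine ⟨Tm.app f (Function.update a i N'), (insteps_app fun j => ?_).steps,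
      ⟨f, _, i, rfl, by rw [Function.update_self]⟩⟩
    by_cases hj : j = i
    · subst hj; rw [Function.update_self]; exact hN
    · rw [Function.update_of_ne hj]
  induction h with
  | single h1 =>
    intro N' hN
    obtain ⟨t', h2, h3⟩ := harg h1 hN
    exact ⟨t', h2, TransGen.single h3⟩
  | tail _ h1 ih =>
    intro N' hN
    obtain ⟨c, h2, h3⟩ := ih hN
    obtain ⟨t', h4, h5⟩ := harg h1 h2
    exact ⟨t', h4, h3.tail h5⟩

theorem Below.red {N N' : Tm F ar} (h : Below R N b) (hN : Steps R N N') : Below R N' b := by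
  obtain ⟨b', h1, h2⟩ := h
  obtain ⟨t', h3, h4⟩ := properSub_red h2 hN
  exact ⟨t', h1.trans h3, h4⟩

theorem Below.of_sub {x N : Tm F ar} (hx : Steps R b x) (hN : N.ProperSub x) : Below R N b :=
  ⟨x, hx, hN⟩

theorem Below.of_arg {x N : Tm F ar} (hx : Steps R b x) (hN : N.IsArg x) : Below R N b :=
  ⟨x, hx, TransGen.single hN⟩

end below

/-- The standing assumptions of the main induction step. -/
structure Cx (R : Set (Rule F ar)) (b : Tm F ar) : Prop where
  trs : IsTRS R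
  lin : LeftLinear R
  cond : CondC R
  good : ∀ N, Below R N b → Good R N

/-- The class relation. -/
def E (R : Set (Rule F ar)) (b x y : Tm F ar) : Prop :=
  ∃ z w, InSteps R x z ∧ InSteps R y w ∧ (z = w ∨ (Below R z b ∧ Below R w b ∧ J R z w))

/-- The class of `x`. -/
def κ (R : Set (Rule F ar)) (b x : Tm F ar) : Set (Tm F ar) := {y | Steps R b y ∧ E R b x y}

section

variable {R : Set (Rule F ar)} {b : Tm F ar} (h : Cx R b)

include h

theorem Cx.Jtrans {x y z : Tm F ar} (hy : Below R y b) (h1 : J R x y) (h2 : J R y z) :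
    J R x z := by
  obtain ⟨e, h3, h4⟩ := h1
  obtain ⟨e', h5, h6⟩ := h2
  obtain ⟨e'', h7, h8⟩ := (h.good y hy).join h4 h5
  exact ⟨e'', h3.trans h7, h6.trans h8⟩

theorem Cx.inner_join {x y z : Tm F ar} (hx : Steps R b x) (hy : InSteps R x y)
    (hz : InSteps R x z) : ∃ w, InSteps R y w ∧ InSteps R z w := by
  cases x with
  | var n =>
    have h1 := insteps_var hy
    have h2 := insteps_var hz
    subst h1; subst h2
    exact ⟨_, ReflTransGen.refl, ReflTransGen.refl⟩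
  | app f a =>
    obtain ⟨a', rfl, ha'⟩ := insteps_inv hy
    obtain ⟨a'', rfl, ha''⟩ := insteps_inv hz
    have hG : ∀ i, ∃ e, Steps R (a' i) e ∧ Steps R (a'' i) e := fun i =>
      (h.good _ (Below.of_arg hx ⟨f, a, i, rfl, rfl⟩)).join (ha' i) (ha'' i)
    choose e he he' using hG
    exact ⟨Tm.app f e, insteps_app he, insteps_app he'⟩

theorem Cx.E_trans {x y z : Tm F ar} (hy : Steps R b y) (h1 : E R b x y) (h2 : E R b y z) :
    E R b x z := by
  obtain ⟨p, q, h3, h4, h5⟩ := h1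
  obtain ⟨p', q', h6, h7, h8⟩ := h2
  obtain ⟨w, hw1, hw2⟩ := h.inner_join hy h4 h6
  rcases h5 with rfl | ⟨hp, hq, hJ⟩
  · rcases h8 with rfl | ⟨hp', hq', hJ'⟩
    · exact ⟨w, w, h3.trans hw1, h7.trans hw2, Or.inl rfl⟩
    · have hw : Below R w b := hp'.red hw2.steps
      exact ⟨w, q', h3.trans hw1, h7, Or.inr ⟨hw, hq', h.Jtrans hp' (J.of_steps hw2.steps).symm hJ'⟩⟩
  · have hw : Below R w b := hq.red hw1.steps
    have h9 : J R p w := h.Jtrans hq hJ (J.of_steps hw1.steps)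
    rcases h8 with rfl | ⟨hp', hq', hJ'⟩
    · exact ⟨p, w, h3, h7.trans hw2, Or.inr ⟨hp, hw, h9⟩⟩
    · exact ⟨p, q', h3, h7, Or.inr ⟨hp, hq', h.Jtrans hw h9
        (h.Jtrans hp' (J.of_steps hw2.steps).symm hJ')⟩⟩

omit h in
theorem E_symm {x y : Tm F ar} (h1 : E R b x y) : E R b y x := by
  obtain ⟨p, q, h3, h4, h5⟩ := h1
  refine ⟨q, p, h4, h3, ?_⟩
  rcases h5 with rfl | ⟨hp, hq, hJ⟩
  · exact Or.inl rfl
  · exact Or.inr ⟨hq, hp, hJ.symm⟩

omit h in
theorem E_refl (x : Tm F ar) : E R b x x := ⟨x, x, ReflTransGen.refl, ReflTransGen.refl, Or.inl rfl⟩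

theorem Cx.κ_eq {x y : Tm F ar} (hx : Steps R b x) (hy : Steps R b y) :
    κ R b x = κ R b y ↔ E R b x y := by
  constructor
  · intro h1
    have : y ∈ κ R b y := ⟨hy, E_refl y⟩
    rw [← h1] at this
    exact this.2
  · intro h1
    ext z
    constructor
    · rintro ⟨hz, hz'⟩
      exact ⟨hz, h.E_trans hx (E_symm h1) hz'⟩
    · rintro ⟨hz, hz'⟩
      exact ⟨hz, h.E_trans hy h1 hz'⟩

theorem Cx.κ_in {x y : Tm F ar} (hx : Steps R b x) (hxy : InSteps R x y) :
    κ R b x = κ R b y :=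
  (h.κ_eq hx (hx.trans hxy.steps)).2 ⟨y, y, hxy, ReflTransGen.refl, Or.inl rfl⟩

theorem Cx.κ_small {x y : Tm F ar} (hx : Steps R b x) (hy : Steps R b y) (hx' : Below R x b)
    (hy' : Below R y b) (hJ : J R x y) : κ R b x = κ R b y :=
  (h.κ_eq hx hy).2 ⟨x, y, ReflTransGen.refl, ReflTransGen.refl, Or.inr ⟨hx', hy', hJ⟩⟩

/-- (S): a step from a small term stays in the class. -/
theorem Cx.κ_step_small {x y : Tm F ar} (hx : Steps R b x) (hx' : Below R x b)
    (hxy : Steps R x y) : κ R b x = κ R b y :=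
  h.κ_small hx (hx.trans hxy) hx' (hx'.red hxy) (J.of_steps hxy)

theorem Cx.κ_join {x y : Tm F ar} (hx : Steps R b x) (hy : Steps R b y)
    (hxy : κ R b x = κ R b y) : J R x y := by
  obtain ⟨z, w, h1, h2, h3⟩ := (h.κ_eq hx hy).1 hxy
  rcases h3 with rfl | ⟨_, _, e, he, he'⟩
  · exact ⟨z, h1.steps, h2.steps⟩
  · exact ⟨e, h1.steps.trans he, h2.steps.trans he'⟩

theorem Cx.rule_sub {q : Rule F ar} (hq : q ∈ R) {σ : ℕ → Tm F ar} {x : ℕ}
    (hx : 0 < q.1.occ x) : (σ x).ProperSub (q.1.subst σ) := by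
  rcases Tm.occ_sub q.1 σ x hx with h1 | h1
  · exact ((h.trs q hq).1 x h1).elim
  · exact h1

/-- Two terms of different classes which are related by a step are related by a root step. -/
theorem Cx.root_of_step {x y : Tm F ar} (hx : Steps R b x) (hne : κ R b x ≠ κ R b y)
    (hxy : Step R x y) : RootStep R x y := by
  rcases step_iff.1 hxy with h1 | h1
  · exact h1
  · exact (hne (h.κ_in hx (ReflTransGen.single h1))).elim

/-- Lemma B. -/
theorem Cx.lemmaB {s e : Tm F ar} (hs : Steps R b s) (hse : RootStep R s e)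
    (he : Below R e b) (hne : κ R b s ≠ κ R b e) : ∀ s', InSteps R s s' →
    ∃ e', RootStep R s' e' ∧ Below R e' b ∧ κ R b e' = κ R b e := by
  intro s' hs'
  induction hs' with
  | refl => exact ⟨e, hse, he, rfl⟩
  | @tail s1 s2 h1 h2 ih =>
    obtain ⟨e1, h3, h4, h5⟩ := ih
    have hs1 : Steps R b s1 := hs.trans (InSteps.steps h1)
    have hs2 : Steps R b s2 := hs1.tail h2.step
    have he1 : Steps R b e1 := hs1.tail h3.step
    have k1 : κ R b s = κ R b s1 := h.κ_in hs h1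
    have k2 : κ R b s1 = κ R b s2 := h.κ_in hs1 (ReflTransGen.single h2)
    have k3 : κ R b s2 ≠ κ R b e1 := by rw [← k2, ← k1, h5]; exact hne
    obtain ⟨q, hq, σ, rfl, rfl⟩ := h3
    rcases step_split q.1 σ h2.step with h6 | ⟨x, t, hx, ht, hP⟩
    · rcases overlap h.trs h.lin h.cond hq h6 with h7 | h7 | h7
      · exact (k3 (by rw [h7])).elim
      · exact ⟨_, h.root_of_step hs2 k3 h7, h4, h5⟩
      · have := h.κ_step_small he1 h4 (ReflTransGen.single h7)
        exact (k3 this.symm).elim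
    · have h7 : Steps R (q.2.subst σ) (q.2.subst (Function.update σ x t)) := by
        refine subst_steps fun y _ => ?_
        by_cases hy : y = x
        · subst hy; rw [Function.update_self]; exact ReflTransGen.single ht
        · rw [Function.update_of_ne hy]
      refine ⟨q.2.subst (Function.update σ x t), ⟨q, hq, _, hP (h.lin q hq), rfl⟩, h4.red h7, ?_⟩
      rw [← h.κ_step_small he1 h4 h7, h5]

end

/-- The rank is eventually not larger. -/
def EvLe (R : Set (Rule F ar)) (y : Tm F ar) (ρ : Tm F ar → Ordinal.{u}) : Prop :=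
  ∀ (P : Tm F ar) (τ : ℕ → Tm F ar), P.Linear → (∀ x, P ≠ Tm.var x) → InSteps R y (P.subst τ) →
    ∃ τ' : ℕ → Tm F ar, (∀ x, 0 < P.occ x → Steps R (τ x) (τ' x)) ∧
      ∀ τ'' : ℕ → Tm F ar, (∀ x, 0 < P.occ x → Steps R (τ' x) (τ'' x)) →
        ρ (P.subst τ'') ≤ ρ (P.subst τ)

theorem IsInRank.stay0 {R : Set (Rule F ar)} {y t : Tm F ar} {ρ : Tm F ar → Ordinal.{u}}
    (hρ : IsInRank R y t ρ) {w w' : Tm F ar} (hw : InSteps R y w) (h0 : ρ w = 0)
    (hw' : InSteps R w w') : ρ w' = 0 :=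
  (hρ.zero w' (hw.trans hw')).2 (((hρ.zero w hw).1 h0).trans hw')

theorem IsInRank.evLe {R : Set (Rule F ar)} {y t : Tm F ar} {ρ : Tm F ar → Ordinal.{u}}
    (hρ : IsInRank R y t ρ) : EvLe R y ρ := by
  intro P τ hP hPv hy
  by_cases h0 : ρ (P.subst τ) = 0
  · refine ⟨τ, fun _ _ => ReflTransGen.refl, fun τ'' h => ?_⟩
    rw [h0, hρ.stay0 hy h0 (subst_insteps hPv h)]
  · rcases hρ.alt P τ hP hPv hy h0 with ⟨τ', h1, h2⟩ | ⟨h1, _⟩
    · exact ⟨τ', h1, fun τ'' h => (h2 τ'' h).le⟩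
    · exact ⟨τ, fun _ _ => ReflTransGen.refl, fun τ'' h => h1 τ'' h⟩

theorem Tm.occ_ren_of {ρ : ℕ → ℕ} (t : Tm F ar) {x : ℕ} (h : 0 < t.occ x) :
    0 < (t.ren ρ).occ (ρ x) := by
  unfold Tm.ren
  induction t with
  | var y =>
    simp only [Tm.occ] at h
    split at h
    · rename_i hy; subst hy; simp [Tm.occ]
    · exact absurd h (lt_irrefl 0)
  | app f a ih =>
    obtain ⟨i, hi⟩ := Tm.occ_app h
    exact Tm.occ_arg (a := fun j => (a j).subst fun x => Tm.var (ρ x)) (ih i hi)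

section

variable {R : Set (Rule F ar)} {b : Tm F ar} (h : Cx R b)

include h

/-- Moves of the variable values required on both sides of a rule can be combined. -/
theorem Cx.merge {q : Rule F ar} (hq : q ∈ R) {σ : ℕ → Tm F ar}
    (hb : Steps R b (q.1.subst σ)) {σ₁ : ℕ → Tm F ar}
    (h1 : ∀ x, 0 < q.1.occ x → Steps R (σ x) (σ₁ x)) {P : Tm F ar} {π : ℕ → ℕ}
    (hP : q.2 = P.ren π) {τ : ℕ → Tm F ar}
    (h2 : ∀ y, 0 < P.occ y → Steps R (σ (π y)) (τ y)) :
    ∃ σ₂ : ℕ → Tm F ar, (∀ x, 0 < q.1.occ x → Steps R (σ₁ x) (σ₂ x)) ∧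
      ∀ y, 0 < P.occ y → Steps R (τ y) (σ₂ (π y)) := by
  classical
  have key : ∀ x, ∃ e, 0 < q.1.occ x → Steps R (σ₁ x) e ∧
      ∀ y, 0 < P.occ y → π y = x → Steps R (τ y) e := by
    intro x
    by_cases hx : 0 < q.1.occ x
    · have hG : Good R (σ x) := h.good _ (Below.of_sub hb (h.rule_sub hq hx))
      let S : Set (Option ℕ) := insert none (some '' {y | 0 < P.occ y ∧ π y = x})
      have hS : S.Finite := ((P.finite_occ.subset fun y hy => hy.1).image _).insert _
      let g : Option ℕ → Tm F ar := fun o => o.elim (σ₁ x) τ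
      obtain ⟨e, _, he⟩ := hG.common hS g (by
        rintro o (rfl | ⟨y, ⟨hy, hyx⟩, rfl⟩)
        · exact h1 x hx
        · have := h2 y hy
          rw [hyx] at this
          exact this)
      refine ⟨e, fun _ => ⟨he none (Set.mem_insert _ _), fun y hy hyx => ?_⟩⟩
      exact he (some y) (Set.mem_insert_of_mem _ ⟨y, ⟨hy, hyx⟩, rfl⟩)
    · exact ⟨Tm.var 0, fun h' => (hx h').elim⟩
  choose σ₂ hσ₂ using key
  refine ⟨σ₂, fun x hx => (hσ₂ x hx).1, fun y hy => ?_⟩
  have h3 : 0 < q.1.occ (π y) := (h.trs q hq).2 _ (by rw [hP]; exact P.occ_ren_of hy)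
  exact (hσ₂ (π y) h3).2 y hy rfl

theorem Cx.nonvar_rhs {q : Rule F ar} (hq : q ∈ R) {σ : ℕ → Tm F ar}
    (hb : Steps R b (q.1.subst σ)) (hns : ¬ Below R (q.2.subst σ) b) : ∀ x, q.2 ≠ Tm.var x := by
  intro x hx
  apply hns
  rw [hx, Tm.subst_var]
  exact Below.of_sub hb (h.rule_sub hq ((h.trs q hq).2 x (by rw [hx]; simp [Tm.occ])))

theorem Cx.descend {x x' y y' t : Tm F ar} {ρ₁ ρ₂ : Tm F ar → Ordinal.{u}}
    (hx : Steps R b x) (hxx : InSteps R x x') (hy : Steps R b y) (hyy : InSteps R y y')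
    (hr : RootStep R x' y') (h1 : IsInRank R x t ρ₁) (h2 : EvLe R y ρ₂) (h0 : ρ₁ x' ≠ 0)
    (hne : κ R b x ≠ κ R b y) (hns : ¬ Below R y' b) :
    ∃ x'' y'', InSteps R x x'' ∧ InSteps R y y'' ∧ (RootStep R x'' y'' ∨ RootStep R y'' x'') ∧
      ρ₁ x'' < ρ₁ x' ∧ ρ₂ y'' ≤ ρ₂ y' := by
  obtain ⟨q, hq, σ, rfl, rfl⟩ := hr
  have hbx : Steps R b (q.1.subst σ) := hx.trans hxx.steps
  have hby : Steps R b (q.2.subst σ) := hy.trans hyy.steps
  rcases h1.alt q.1 σ (h.lin q hq) (h.trs q hq).1 hxx h0 with ⟨σ₁, h3, h4⟩ | ⟨_, z, hz, hz', hz''⟩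
  · obtain ⟨P, π, hP, hr, hPv⟩ := Tm.exists_linear q.2
    have hPv := hPv (h.nonvar_rhs hq hbx hns)
    have hsub : ∀ σ' : ℕ → Tm F ar, q.2.subst σ' = P.subst fun y => σ' (π y) := by
      intro σ'
      rw [hr, Tm.ren, Tm.subst_subst]
      rfl
    obtain ⟨τ', h5, h6⟩ := h2 P (fun y => σ (π y)) hP hPv (by rw [← hsub]; exact hyy)
    obtain ⟨σ₂, h7, h8⟩ := h.merge hq hbx h3 hr h5
    refine ⟨q.1.subst σ₂, q.2.subst σ₂, hxx.trans (subst_insteps (h.trs q hq).1 fun x hx =>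
      (h3 x hx).trans (h7 x hx)), ?_, Or.inl ⟨q, hq, σ₂, rfl, rfl⟩, h4 σ₂ h7, ?_⟩
    · refine hyy.trans ?_
      rw [hsub, hsub]
      exact subst_insteps hPv fun y hy => (h5 y hy).trans (h8 y hy)
    · rw [hsub, hsub]
      exact h6 _ h8
  · have hxz : InSteps R x z := hxx.tail hz'
    have k : κ R b z ≠ κ R b (q.2.subst σ) := by
      rw [← h.κ_in hx hxz, ← h.κ_in hy hyy]; exact hne
    rcases overlap h.trs h.lin h.cond hq hz with h7 | h7 | h7
    · exact (k (by rw [h7])).elim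
    · exact ⟨z, _, hxz, hyy, Or.inl (h.root_of_step (hx.trans hxz.steps) k h7), hz'', le_rfl⟩
    · exact ⟨z, _, hxz, hyy, Or.inr (h.root_of_step hby k.symm h7), hz'', le_rfl⟩

/-- A late inner reduct without root steps into the class `D`. -/
theorem Cx.getT {s x₀ : Tm F ar} (hs : Steps R b s) (hx₀ : Steps R b x₀)
    (hk : κ R b x₀ = κ R b s) {D : Set (Tm F ar)} (hD : κ R b s ≠ D)
    (hno : ∀ x' y, InSteps R x₀ x' → RootStep R x' y → κ R b y ≠ D) :
    ∃ t, InSteps R s t ∧ ∀ x' y, InSteps R t x' → RootStep R x' y → κ R b y ≠ D := by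
  obtain ⟨z, w, h1, h2, h3⟩ := (h.κ_eq hx₀ hs).1 hk
  rcases h3 with rfl | ⟨_, hw, _⟩
  · exact ⟨z, h2, fun x' y h4 => hno x' y (h1.trans h4)⟩
  · refine ⟨w, h2, fun x' y h4 h5 => ?_⟩
    have hbw : Steps R b w := hs.trans h2.steps
    rw [← h.κ_step_small hbw hw (h4.steps.tail h5.step), ← h.κ_in hs h2]
    exact hD

/-- The relation `~>` between classes. -/
def CT (R : Set (Rule F ar)) (b : Tm F ar) (C D : Set (Tm F ar)) : Prop :=
  C ≠ D ∧ (∃ x, Steps R b x ∧ κ R b x = C) ∧ ∀ x, Steps R b x → κ R b x = C →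
    ∃ x' y, InSteps R x x' ∧ RootStep R x' y ∧ κ R b y = D

omit h in
theorem not_CT {s e : Tm F ar} (hs : Steps R b s) (hne : κ R b s ≠ κ R b e)
    (hn : ¬ CT R b (κ R b s) (κ R b e)) : ∃ x₀, Steps R b x₀ ∧ κ R b x₀ = κ R b s ∧
      ∀ x' y, InSteps R x₀ x' → RootStep R x' y → κ R b y ≠ κ R b e := by
  by_contra hc
  push Not at hc
  refine hn ⟨hne, ⟨s, hs, rfl⟩, fun x hx hx' => ?_⟩
  obtain ⟨x', y, h1, h2, h3⟩ := hc x hx hx'
  exact ⟨x', y, h1, h2, h3⟩

/-- If `s` has a late inner reduct without root steps into the class of `e`, then no state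
has a small target. -/
theorem Cx.noSmall {s t s' e' : Tm F ar} (hs : Steps R b s) (ht : InSteps R s t)
    (hno : ∀ x' y, InSteps R t x' → RootStep R x' y → κ R b y ≠ κ R b e')
    (hss : InSteps R s s') (hr : RootStep R s' e') (hne : κ R b s ≠ κ R b e') :
    ¬ Below R e' b := by
  intro he
  obtain ⟨w, h1, h2⟩ := h.inner_join hs hss ht
  have hk : κ R b s' ≠ κ R b e' := by rw [← h.κ_in hs hss]; exact hne
  obtain ⟨e1, h3, _, h4⟩ := h.lemmaB (hs.trans hss.steps) hr he hk w h1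
  exact hno w e1 h2 h3 h4

theorem Cx.inRank {c t : Tm F ar} (hc : Steps R b c) (ht : InSteps R c t) :
    ∃ ρ : Tm F ar → Ordinal.{u}, IsInRank R c t ρ :=
  exists_inRank (fun _ ha => h.good _ (Below.of_arg hc ha)) ht

/-- Lemma D1. -/
theorem Cx.D1 {s e : Tm F ar} (hs : Steps R b s) (he : Steps R b e)
    (hse : RootStep R s e ∨ RootStep R e s) (hne : κ R b s ≠ κ R b e) :
    CT R b (κ R b s) (κ R b e) ∨ CT R b (κ R b e) (κ R b s) := by
  by_contra hc
  push Not at hc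
  obtain ⟨x₀, hx1, hx2, hx3⟩ := not_CT hs hne hc.1
  obtain ⟨y₀, hy1, hy2, hy3⟩ := not_CT he hne.symm hc.2
  obtain ⟨t₁, ht1, ht1'⟩ := h.getT hs hx1 hx2 hne hx3
  obtain ⟨t₂, ht2, ht2'⟩ := h.getT he hy1 hy2 hne.symm hy3
  obtain ⟨ρ₁, hρ₁⟩ := h.inRank hs ht1
  obtain ⟨ρ₂, hρ₂⟩ := h.inRank he ht2
  have wf : WellFounded (Prod.Lex (· < ·) (· < ·) : Ordinal.{u} × Ordinal.{u} → _ → Prop) :=
    (Prod.lex ⟨_, wellFounded_lt⟩ ⟨_, wellFounded_lt⟩).wf
  have key : ∀ (p : Ordinal.{u} × Ordinal.{u}) (s' e' : Tm F ar), InSteps R s s' →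
      InSteps R e e' → (RootStep R s' e' ∨ RootStep R e' s') → (ρ₁ s', ρ₂ e') = p → False := by
    intro p
    induction p using wf.induction with
    | _ p ih =>
      intro s' e' hs' he' hr hp
      have k1 := h.κ_in hs hs'
      have k2 := h.κ_in he he'
      rcases hr with hr | hr
      · have h0 : ρ₁ s' ≠ 0 := fun h0 =>
          ht1' s' e' ((hρ₁.zero s' hs').1 h0) hr k2.symm
        have hns : ¬ Below R e' b := h.noSmall hs ht1 (by rw [← k2]; exact ht1') hs' hr
          (by rw [← k2]; exact hne)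
        obtain ⟨x'', y'', h1, h2, h3, h4, h5⟩ :=
          h.descend hs hs' he he' hr hρ₁ hρ₂.evLe h0 hne hns
        exact ih (ρ₁ x'', ρ₂ y'') (by rw [← hp]; exact Prod.Lex.left _ _ h4) x'' y'' h1 h2 h3 rfl
      · have h0 : ρ₂ e' ≠ 0 := fun h0 =>
          ht2' e' s' ((hρ₂.zero e' he').1 h0) hr k1.symm
        have hns : ¬ Below R s' b := h.noSmall he ht2 (by rw [← k1]; exact ht2') he' hr
          (by rw [← k1]; exact hne.symm)
        obtain ⟨x'', y'', h1, h2, h3, h4, h5⟩ :=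
          h.descend he he' hs hs' hr hρ₂ hρ₁.evLe h0 hne.symm hns
        refine ih (ρ₁ y'', ρ₂ x'') ?_ y'' x'' h2 h1 h3.symm rfl
        rw [← hp]
        rcases h5.lt_or_eq with h6 | h6
        · exact Prod.Lex.left _ _ h6
        · rw [h6]; exact Prod.Lex.right _ h4
  exact key _ s e ReflTransGen.refl ReflTransGen.refl hse rfl

/-- The relation `=>` between classes. -/
def PR (R : Set (Rule F ar)) (b : Tm F ar) (C D : Set (Tm F ar)) : Prop :=
  ∃ t, Steps R b t ∧ κ R b t = C ∧ ∀ x, InSteps R t x → ∃ y, RootStep R x y ∧ κ R b y = D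

/-- Lemma D2. -/
theorem Cx.D2 {s e : Tm F ar} (hs : Steps R b s) (he : Steps R b e)
    (hse : RootStep R s e ∨ RootStep R e s) (hne : κ R b s ≠ κ R b e)
    (hn : ¬ CT R b (κ R b e) (κ R b s)) : PR R b (κ R b s) (κ R b e) := by
  obtain ⟨y₀, hy1, hy2, hy3⟩ := not_CT he hne.symm hn
  have hT : ∀ e', Steps R b e' → κ R b e' = κ R b e → ∃ t, InSteps R e' t ∧
      ∀ x' y, InSteps R t x' → RootStep R x' y → κ R b y ≠ κ R b s := by
    intro e' he' hk
    exact h.getT he' hy1 (hy2.trans hk.symm) (by rw [hk]; exact hne.symm) hy3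
  by_cases hA : ∃ s' e', Steps R b s' ∧ κ R b s' = κ R b s ∧ κ R b e' = κ R b e ∧
      RootStep R s' e' ∧ Below R e' b
  · obtain ⟨s', e', h1, h2, h3, h4, h5⟩ := hA
    refine ⟨s', h1, h2, fun x hx => ?_⟩
    obtain ⟨e1, h6, _, h7⟩ := h.lemmaB h1 h4 h5 (by rw [h2, h3]; exact hne) x hx
    exact ⟨e1, h6, h7.trans h3⟩
  · push Not at hA
    obtain ⟨t₂, ht2, ht2'⟩ := hT e he rfl
    obtain ⟨ρ, hρ⟩ := h.inRank he ht2
    let St : Ordinal.{u} → Prop := fun α => ∃ s' e', Steps R b s' ∧ κ R b s' = κ R b s ∧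
      InSteps R e e' ∧ (RootStep R s' e' ∨ RootStep R e' s') ∧ ρ e' = α
    have hSt : ∃ α, St α := ⟨ρ e, s, e, hs, rfl, ReflTransGen.refl, hse, rfl⟩
    obtain ⟨m, hm, hmin⟩ : ∃ m, St m ∧ ∀ α, St α → m ≤ α := by
      refine ⟨sInf {α | St α}, csInf_mem hSt, fun α hα => csInf_le' hα⟩
    -- minimal states are directed from `C` to `D`
    have hdir : ∀ s' e', Steps R b s' → κ R b s' = κ R b s → InSteps R e e' →
        (RootStep R s' e' ∨ RootStep R e' s') → ρ e' = m → RootStep R s' e' := by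
      intro s' e' h1 h2 h3 h4 h5
      rcases h4 with h4 | h4
      · exact h4
      · exfalso
        have k2 := h.κ_in he h3
        have h0 : ρ e' ≠ 0 := fun h0 => ht2' e' s' ((hρ.zero e' h3).1 h0) h4 h2
        have hns : ¬ Below R s' b := h.noSmall he ht2 (by rw [h2]; exact ht2') h3 h4
          (by rw [h2]; exact hne.symm)
        obtain ⟨x'', y'', h6, h7, h8, h9, _⟩ := h.descend (ρ₂ := fun _ => 0) he h3 h1
          ReflTransGen.refl h4 hρ (fun P τ _ _ _ => ⟨τ, fun _ _ => ReflTransGen.refl,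
            fun _ _ => le_rfl⟩) h0 (by rw [h2]; exact hne.symm) hns
        have := hmin (ρ x'') ⟨y'', x'', h1.trans h7.steps, by rw [← h.κ_in h1 h7, h2], h6,
          h8.symm, rfl⟩
        rw [h5] at h9
        exact absurd h9 (not_lt.2 this)
    obtain ⟨s₁, e₁, hs1, hs2, hs3, hs4, hs5⟩ := hm
    have key : ∀ x, InSteps R s₁ x → ∃ e', InSteps R e e' ∧
        (RootStep R x e' ∨ RootStep R e' x) ∧ ρ e' = m := by
      intro x hx
      induction hx with
      | refl => exact ⟨e₁, hs3, hs4, hs5⟩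
      | @tail x x2 h1 h2 ih =>
        obtain ⟨e', h3, h4, h5⟩ := ih
        have hbx : Steps R b x := hs1.trans (InSteps.steps h1)
        have kx : κ R b x = κ R b s := by rw [← h.κ_in hs1 h1, hs2]
        have hr := hdir x e' hbx kx h3 h4 h5
        have hbe : Steps R b e' := he.trans h3.steps
        have ke : κ R b e' = κ R b e := (h.κ_in he h3).symm
        have hns : ¬ Below R e' b := hA x e' hbx kx ke hr
        have hbx2 : Steps R b x2 := hbx.tail h2.step
        have kx2 : κ R b x2 = κ R b s := by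
          rw [← h.κ_in hbx (ReflTransGen.single h2), kx]
        obtain ⟨q, hq, σ, rfl, rfl⟩ := hr
        rcases step_split q.1 σ h2.step with h6 | ⟨z, t, hz, ht, hP⟩
        · have k : κ R b x2 ≠ κ R b (q.2.subst σ) := by rw [kx2, ke]; exact hne
          rcases overlap h.trs h.lin h.cond hq h6 with h7 | h7 | h7
          · exact (k (by rw [h7])).elim
          · exact ⟨_, h3, Or.inl (h.root_of_step hbx2 k h7), h5⟩
          · exact ⟨_, h3, Or.inr (h.root_of_step hbe k.symm h7), h5⟩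
        · have hmv : ∀ y, Steps R (σ y) (Function.update σ z t y) := by
            intro y
            by_cases hy : y = z
            · subst hy; rw [Function.update_self]; exact ReflTransGen.single ht
            · rw [Function.update_of_ne hy]
          obtain ⟨P, π, hPl, hr, hPv⟩ := Tm.exists_linear q.2
          have hnv := h.nonvar_rhs hq hbx hns
          have hPv := hPv hnv
          have hsub : ∀ σ' : ℕ → Tm F ar, q.2.subst σ' = P.subst fun y => σ' (π y) := by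
            intro σ'
            rw [hr, Tm.ren, Tm.subst_subst]
            rfl
          have h8 : InSteps R (q.2.subst σ) (q.2.subst (Function.update σ z t)) :=
            subst_insteps hnv fun y _ => hmv y
          have h9 : RootStep R x2 (q.2.subst (Function.update σ z t)) :=
            ⟨q, hq, _, hP (h.lin q hq), rfl⟩
          refine ⟨_, h3.trans h8, Or.inl h9, le_antisymm ?_ (hmin _ ⟨x2, _, hbx2, kx2,
            h3.trans h8, Or.inl h9, rfl⟩)⟩
          by_cases h0 : ρ (q.2.subst σ) = 0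
          · rw [hρ.stay0 h3 h0 h8, ← h5, h0]
          · rcases hρ.alt P (fun y => σ (π y)) hPl hPv (by rw [← hsub]; exact h3)
              (by rw [← hsub]; exact h0) with ⟨τ', h10, h11⟩ | ⟨h10, _⟩
            · exfalso
              obtain ⟨σ₂, h12, h13⟩ := h.merge hq hbx (σ₁ := σ)
                (fun _ _ => ReflTransGen.refl) hr h10
              have h14 := h11 _ h13
              rw [← hsub, ← hsub, h5] at h14
              have h15 : InSteps R (q.1.subst σ) (q.1.subst σ₂) :=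
                subst_insteps (h.trs q hq).1 h12
              have h16 : InSteps R (q.2.subst σ) (q.2.subst σ₂) := by
                rw [hsub, hsub]
                exact subst_insteps hPv fun y hy => (h10 y hy).trans (h13 y hy)
              have := hmin (ρ (q.2.subst σ₂)) ⟨q.1.subst σ₂, _, hbx.trans h15.steps,
                by rw [← h.κ_in hbx h15, kx], h3.trans h16, Or.inl ⟨q, hq, σ₂, rfl, rfl⟩, rfl⟩
              exact absurd h14 (not_lt.2 this)
            · have := h10 (fun y => Function.update σ z t (π y)) fun y _ => hmv (π y)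
              rw [← hsub, ← hsub, h5] at this
              exact this
    refine ⟨s₁, hs1, hs2, fun x hx => ?_⟩
    obtain ⟨e', h1, h2, h3⟩ := key x hx
    exact ⟨e', hdir x e' (hs1.trans hx.steps) (by rw [← h.κ_in hs1 hx, hs2]) h1 h2 h3,
      (h.κ_in he h1).symm⟩

theorem Cx.D3core {C D D' : Set (Tm F ar)} (h1 : CT R b C D) (h2 : CT R b C D') (hne : D ≠ D')
    (h3 : ¬ CT R b D' C) : CT R b D D' ∨ CT R b D' D := by
  obtain ⟨c, hc, rfl⟩ := h2.2.1
  obtain ⟨c', e, hc', he, rfl⟩ := h2.2.2 c hc rfl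
  have kc := h.κ_in hc hc'
  have hbc' : Steps R b c' := hc.trans hc'.steps
  have hbe : Steps R b e := hbc'.tail he.step
  have hPR : PR R b (κ R b c') (κ R b e) := h.D2 hbc' hbe (Or.inl he)
    (by rw [← kc]; exact h2.1) (by rw [← kc]; exact h3)
  obtain ⟨t, ht, ht', ht''⟩ := hPR
  obtain ⟨t', d, h4, h5, rfl⟩ := h1.2.2 t ht (ht'.trans kc.symm)
  obtain ⟨e', h6, h7⟩ := ht'' t' h4
  have hbt' : Steps R b t' := ht.trans h4.steps
  have hbd : Steps R b d := hbt'.tail h5.step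
  have hbe' : Steps R b e' := hbt'.tail h6.step
  obtain ⟨q, hq, σ, rfl, rfl⟩ := h5
  have hNV : NV R q.1 σ e' := by
    cases hq1 : q.1 with
    | var x => exact ((h.trs q hq).1 x hq1).elim
    | app f a => rw [hq1] at h6; exact NV.root h6
  have hk : κ R b (q.2.subst σ) ≠ κ R b e' := by rw [h7]; exact hne
  rw [← h7]
  rcases overlap h.trs h.lin h.cond hq hNV with h8 | h8 | h8
  · exact (hk (by rw [h8])).elim
  · exact h.D1 hbd hbe' (Or.inr (h.root_of_step hbe' hk.symm h8)) hk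
  · exact h.D1 hbd hbe' (Or.inl (h.root_of_step hbd hk h8)) hk

/-- Lemma D3. -/
theorem Cx.D3 {C D D' : Set (Tm F ar)} (h1 : CT R b C D) (h2 : CT R b C D') (hne : D ≠ D') :
    ∃ Z, (D = Z ∨ CT R b D Z) ∧ (D' = Z ∨ CT R b D' Z) := by
  by_cases h3 : CT R b D' C
  · by_cases h4 : CT R b D C
    · exact ⟨C, Or.inr h4, Or.inr h3⟩
    · rcases h.D3core h2 h1 hne.symm h4 with h5 | h5
      · exact ⟨D, Or.inl rfl, Or.inr h5⟩
      · exact ⟨D', Or.inr h5, Or.inl rfl⟩
  · rcases h.D3core h1 h2 hne h3 with h5 | h5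
    · exact ⟨D', Or.inr h5, Or.inl rfl⟩
    · exact ⟨D, Or.inl rfl, Or.inr h5⟩

end

end Pool.Agent.Work.MP_d87e04_lc
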