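import Pool.Agent.Work.MP_d87e04_lc.Good

/-!
# Parallel steps and the general condition on critical pairs

Definitions used by the hand-in `MP_d87e04_lc.NoInfiniteNestingABC`.
-/

set_option autoImplicit false

namespace Pool.Agent.Work.MP_d87e04_lc

universe u

variable {F : Type u} {ar : F → ℕ}

open Relation

/-- One parallel step: a possibly empty set of redexes at pairwise disjoint positions is
contracted. -/
inductive Par (R : Set (Rule F ar)) : Tm F ar → Tm F ar → Prop
  | refl (t : Tm F ar) : Par R t t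
  | root {q : Rule F ar} (hq : q ∈ R) (σ : ℕ → Tm F ar) : Par R (q.1.subst σ) (q.2.subst σ)
  | args {f : F} {a b : Fin (ar f) → Tm F ar} (h : ∀ i, Par R (a i) (b i)) :
      Par R (Tm.app f a) (Tm.app f b)

/-- Every critical pair `t ≈ s` (`t` from the inner step, `s` from the root step) satisfies
`s →∥ t`, or `t →∥ s`, or `t` and `s` have a common reduct by steps below the root. -/
def CondP (R : Set (Rule F ar)) : Prop :=
  ∀ t s, CriticalPair R t s → Par R s t ∨ Par R t s ∨ ∃ e, InSteps R t e ∧ InSteps R s e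

theorem Par.subst {R : Set (Rule F ar)} {x y : Tm F ar} (h : Par R x y) (σ : ℕ → Tm F ar) :
    Par R (x.subst σ) (y.subst σ) := by
  induction h with
  | refl t => exact Par.refl _
  | root hq τ =>
    rw [Tm.subst_subst, Tm.subst_subst]
    exact Par.root hq _
  | args h ih =>
    simp only [Tm.subst_app]
    exact Par.args ih

theorem Par.steps {R : Set (Rule F ar)} {x y : Tm F ar} (h : Par R x y) : Steps R x y := by
  induction h with
  | refl t => exact ReflTransGen.refl
  | root hq τ => exact ReflTransGen.single (Step.root hq τ)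
  | args h ih => exact (insteps_app ih).steps

theorem Par.cases' {R : Set (Rule F ar)} {x y : Tm F ar} (h : Par R x y) :
    RootStep R x y ∨ InSteps R x y := by
  cases h with
  | refl t => exact Or.inr ReflTransGen.refl
  | root hq τ => exact Or.inl ⟨_, hq, τ, rfl, rfl⟩
  | args h => exact Or.inr (insteps_app fun i => (h i).steps)

theorem InStep.subst {R : Set (Rule F ar)} {x y : Tm F ar} (h : InStep R x y)
    (σ : ℕ → Tm F ar) : InStep R (x.subst σ) (y.subst σ) := by
  obtain ⟨f, a, i, t, rfl, rfl, h⟩ := h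
  refine ⟨f, fun j => (a j).subst σ, i, t.subst σ, by simp, ?_, h.subst σ⟩
  simp only [Tm.subst_app]
  congr 1
  funext j
  by_cases hj : j = i
  · subst hj; simp
  · simp [Function.update_of_ne hj]

theorem InSteps.substIn {R : Set (Rule F ar)} {x y : Tm F ar} (h : InSteps R x y)
    (σ : ℕ → Tm F ar) : InSteps R (x.subst σ) (y.subst σ) := by
  induction h with
  | refl => exact ReflTransGen.refl
  | tail _ h2 ih => exact ih.tail (h2.subst σ)

/-- What the condition says about two terms. -/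
def Clo (R : Set (Rule F ar)) (x y : Tm F ar) : Prop :=
  RootStep R x y ∨ RootStep R y x ∨ ∃ e, InSteps R x e ∧ InSteps R y e

/-- The overlap lemma: the only use of the condition on critical pairs. -/
theorem overlapP {R : Set (Rule F ar)} (hR : IsTRS R) (hL : LeftLinear R) (hC : CondP R)
    {q : Rule F ar} (hq : q ∈ R) {σ : ℕ → Tm F ar} {y : Tm F ar} (h : NV R q.1 σ y) :
    Clo R y (q.2.subst σ) := by
  obtain ⟨p, u, q', ψ, h1, h2, h3, h4, h5⟩ := h.pos
  -- rename apart
  let ρ₁ : ℕ → ℕ := fun x => 2 * x + 1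
  let ρ₂ : ℕ → ℕ := fun x => 2 * x
  have i1 : Function.Injective ρ₁ := fun x y h => by simp only [ρ₁] at h; omega
  have i2 : Function.Injective ρ₂ := fun x y h => by simp only [ρ₂] at h; omega
  have i12 : ∀ x y, ρ₁ x ≠ ρ₂ y := fun x y h => by simp only [ρ₁, ρ₂] at h; omega
  let χ : ℕ → Tm F ar := fun x => if x % 2 = 0 then σ (x / 2) else ψ (x / 2)
  have hχ2 : ∀ t : Tm F ar, (t.ren ρ₂).subst χ = t.subst σ := by
    intro t
    rw [Tm.ren, Tm.subst_subst]
    refine Tm.subst_congr t fun x _ => ?_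
    simp [χ, ρ₂]
  have hχ1 : ∀ t : Tm F ar, (t.ren ρ₁).subst χ = t.subst ψ := by
    intro t
    rw [Tm.ren, Tm.subst_subst]
    refine Tm.subst_congr t fun x _ => ?_
    have : (2 * x + 1) / 2 = x := by omega
    simp [χ, ρ₁, this]
  have hu : (q.1.ren ρ₂).subAt p = some (u.ren ρ₂) := Tm.subAt_subst _ _ _ _ h1
  have hlu : u.Linear := fun x => (Tm.subAt_linear _ _ _ h1 x).trans (hL q hq x)
  obtain ⟨θ, hθ, hθ'⟩ := Tm.exists_mgu (u.ren ρ₂) (q'.1.ren ρ₁) (hlu.ren i2)
    (Tm.Linear.ren i1 (hL q' h3)) (by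
      intro x hx hx'
      obtain ⟨a, ha, _⟩ := Tm.occ_ren_pos _ hx
      obtain ⟨b, hb, _⟩ := Tm.occ_ren_pos _ hx'
      exact i12 b a (hb.trans ha.symm)) ⟨χ, by rw [hχ2, hχ1, h4]⟩
  have hun : (u.ren ρ₂).subst χ = (q'.1.ren ρ₁).subst χ := by rw [hχ2, hχ1, h4]
  have hfac : ∀ t : Tm F ar, (t.subst θ).subst χ = t.subst χ := by
    intro t
    rw [Tm.subst_subst]
    exact Tm.subst_congr t fun x _ => hθ' χ hun x
  have hnv : ∀ x, u.ren ρ₂ ≠ Tm.var x := by
    intro x
    cases u with
    | var z => exact (h2 z rfl).elim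
    | app f a => simp [Tm.ren]
  by_cases hvar : p = [] ∧ Variant q' q
  · obtain ⟨hp, π, hπ1, hπ2⟩ := hvar
    subst hp
    simp only [Tm.subAt] at h1
    have hu1 : u = q.1 := by
      cases hq1 : q.1 <;> simp only [hq1, Tm.subAt, Option.some.injEq] at h1 <;> exact h1.symm
    rw [hu1, ← hπ1, Tm.ren, Tm.subst_subst] at h4
    have h6 := Tm.subst_inj _ h4
    have h7 : y = q'.2.subst ψ := by
      rw [h5]
      cases q.1.subst σ <;> rfl
    have h8 : y = q.2.subst σ := by
      rw [h7, ← hπ2, Tm.ren, Tm.subst_subst]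
      exact Tm.subst_congr _ fun x hx => (h6 x ((hR q' h3).2 x hx)).symm
    exact Or.inr (Or.inr ⟨y, ReflTransGen.refl, by rw [h8]⟩)
  · have hcp : CriticalPair R (((q.1.ren ρ₂).subst θ).repl p ((q'.2.ren ρ₁).subst θ))
        ((q.2.ren ρ₂).subst θ) :=
      ⟨q'.1, q'.2, q.1, q.2, h3, hq, ρ₁, ρ₂, i1, i2, i12, p, u.ren ρ₂, θ, hu, hnv,
        ⟨hθ, fun τ hτ => ⟨τ, fun x => (hθ' τ hτ x).symm⟩⟩,
        fun hp hv => hvar ⟨hp, hv⟩, rfl, rfl⟩
    have ht : (((q.1.ren ρ₂).subst θ).repl p ((q'.2.ren ρ₁).subst θ)).subst χ = y := by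
      rw [Tm.repl_subst χ _ _ p _ (Tm.subAt_subst θ _ _ _ hu), hfac, hfac, hχ2, hχ1, h5]
    have hs : ((q.2.ren ρ₂).subst θ).subst χ = q.2.subst σ := by rw [hfac, hχ2]
    rcases hC _ _ hcp with h6 | h6 | ⟨e, h6, h7⟩
    · have := h6.subst χ
      rw [ht, hs] at this
      rcases this.cases' with h8 | h8
      · exact Or.inr (Or.inl h8)
      · exact Or.inr (Or.inr ⟨y, ReflTransGen.refl, h8⟩)
    · have := h6.subst χ
      rw [ht, hs] at this
      rcases this.cases' with h8 | h8
      · exact Or.inl h8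
      · exact Or.inr (Or.inr ⟨_, h8, ReflTransGen.refl⟩)
    · have h8 := h6.substIn χ
      have h9 := h7.substIn χ
      rw [ht] at h8
      rw [hs] at h9
      exact Or.inr (Or.inr ⟨_, h8, h9⟩)

end Pool.Agent.Work.MP_d87e04_lc
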