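import Pool.Agent.Work.MP_d87e04_lc.PMain

set_option autoImplicit false

namespace Pool.Agent.Work.MP_d87e04_lc.PC

universe u

variable {F : Type u} {ar : F → ℕ}

open Relation

/-- `K` is connected with the class of `v` by a path of length `n`. -/
def reach (R : Set (Rule F ar)) (b v : Tm F ar) : ℕ → Set (Tm F ar) → Prop
  | 0, K => ReflTransGen (CT R b) (κ R b v) K
  | n + 1, K => ∃ K', CT R b K K' ∧ reach R b v n K'

theorem path {R : Set (Rule F ar)} {b : Tm F ar} {v : Tm F ar} (hv : Steps R b v)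
    {K : Set (Tm F ar)} (hK : ReflTransGen (CT R b) (κ R b v) K) :
    ∃ v', Steps R v v' ∧ κ R b v' = K := by
  induction hK with
  | refl => exact ⟨v, ReflTransGen.refl, rfl⟩
  | tail _ h2 ih =>
    obtain ⟨v', h3, h4⟩ := ih
    obtain ⟨x', y, h5, h6, h7⟩ := h2.2.2 v' (hv.trans h3) h4
    exact ⟨y, h3.trans ((InSteps.steps h5).tail h6.step), h7⟩

section

variable {R : Set (Rule F ar)} {b : Tm F ar} (h : Cx R b)

include h

theorem Cx.reach_mono {v : Tm F ar} : ∀ (n : ℕ) {K K' : Set (Tm F ar)}, reach R b v n K →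
    CT R b K K' → ∃ m, m ≤ n ∧ reach R b v m K' := by
  intro n
  induction n with
  | zero => intro K K' h1 h2; exact ⟨0, le_rfl, ReflTransGen.tail h1 h2⟩
  | succ n ih =>
    rintro K K' ⟨K2, h1, h2⟩ h3
    by_cases hK : K2 = K'
    · exact ⟨n, Nat.le_succ n, hK ▸ h2⟩
    · obtain ⟨Z, h4, h5⟩ := h.D3 h1 h3 hK
      obtain ⟨m, hm, hm'⟩ : ∃ m, m ≤ n ∧ reach R b v m Z := by
        rcases h4 with rfl | h4
        · exact ⟨n, le_rfl, h2⟩
        · exact ih h2 h4
      rcases h5 with rfl | h5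
      · exact ⟨m, by omega, hm'⟩
      · exact ⟨m + 1, by omega, Z, h5, hm'⟩

theorem Cx.reach_step {v x y : Tm F ar} (hx : Steps R b x) (hxy : Step R x y) :
    (∃ n, reach R b v n (κ R b x)) ↔ ∃ n, reach R b v n (κ R b y) := by
  have hy : Steps R b y := hx.tail hxy
  by_cases hk : κ R b x = κ R b y
  · rw [hk]
  · have hr := h.root_of_step hx hk hxy
    rcases h.D1 hx hy (Or.inl hr) hk with h1 | h1
    · constructor
      · rintro ⟨n, hn⟩
        obtain ⟨m, _, hm⟩ := h.reach_mono n hn h1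
        exact ⟨m, hm⟩
      · rintro ⟨n, hn⟩
        exact ⟨n + 1, _, h1, hn⟩
    · constructor
      · rintro ⟨n, hn⟩
        exact ⟨n + 1, _, h1, hn⟩
      · rintro ⟨n, hn⟩
        obtain ⟨m, _, hm⟩ := h.reach_mono n hn h1
        exact ⟨m, hm⟩

theorem Cx.reach_all {v u : Tm F ar} (hv : Steps R b v) (hu : Steps R b u) :
    ∃ n, reach R b v n (κ R b u) := by
  have key : ∀ x, Steps R b x →
      ((∃ n, reach R b v n (κ R b b)) ↔ ∃ n, reach R b v n (κ R b x)) := by
    intro x hx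
    induction hx with
    | refl => exact Iff.rfl
    | tail h1 h2 ih => exact ih.trans (h.reach_step h1 h2)
  exact (key u hu).1 ((key v hv).2 ⟨0, ReflTransGen.refl⟩)

theorem Cx.join_all {v u : Tm F ar} (hv : Steps R b v) (hu : Steps R b u) : J R u v := by
  obtain ⟨n, hn⟩ := h.reach_all hv hu
  have key : ∀ (n : ℕ) (u : Tm F ar), Steps R b u → reach R b v n (κ R b u) → J R u v := by
    intro n
    induction n with
    | zero =>
      intro u hu h1
      obtain ⟨v', h2, h3⟩ := path hv h1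
      obtain ⟨e, h4, h5⟩ := h.κ_join hu (hv.trans h2) h3.symm
      exact ⟨e, h4, h2.trans h5⟩
    | succ n ih =>
      rintro u hu ⟨K, h1, h2⟩
      obtain ⟨x', y, h3, h4, rfl⟩ := h1.2.2 u hu rfl
      have h5 : Steps R u y := (InSteps.steps h3).tail h4.step
      obtain ⟨e, h6, h7⟩ := ih y (hu.trans h5) h2
      exact ⟨e, h5.trans h6, h7⟩
  exact key n u hu hn

end

open Classical in
/-- A chosen rank function. -/
noncomputable def RK (R : Set (Rule F ar)) (c v : Tm F ar) : Tm F ar → Ordinal.{u} :=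
  if h : ∃ ρ, IsRank R c v ρ then h.choose else fun _ => 0

theorem RK_spec {R : Set (Rule F ar)} {c v : Tm F ar} (hc : Good R c) (hv : Steps R c v) :
    IsRank R c v (RK R c v) := by
  have h := hc v hv
  rw [RK, dif_pos h]
  exact h.choose_spec

open Classical in
/-- A chosen inner rank function. -/
noncomputable def IK (R : Set (Rule F ar)) (c t : Tm F ar) : Tm F ar → Ordinal.{u} :=
  if h : ∃ ρ, IsInRank R c t ρ then h.choose else fun _ => 0

theorem Cx.IK_spec {R : Set (Rule F ar)} {b : Tm F ar} (h : Cx R b) {c t : Tm F ar}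
    (hc : Steps R b c) (ht : InSteps R c t) : IsInRank R c t (IK R c t) := by
  have h := h.inRank hc ht
  rw [IK, dif_pos h]
  exact h.choose_spec

theorem exists_bound (f g : Tm F ar → Tm F ar → Tm F ar → Ordinal.{u}) :
    ∃ Ω : Ordinal.{u}, ∀ c v w, f c v w < Ω ∧ g c v w < Ω := by
  let G : (Tm F ar × Tm F ar × Tm F ar) → Ordinal.{u} :=
    fun p => max (f p.1 p.2.1 p.2.2) (g p.1 p.2.1 p.2.2)
  refine ⟨Order.succ (⨆ p, G p), fun c v w => ?_⟩
  have h1 : G (c, v, w) ≤ ⨆ p, G p := le_ciSup Ordinal.bddAbove_of_small (c, v, w)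
  exact ⟨Order.lt_succ_of_le ((le_max_left _ _).trans h1),
    Order.lt_succ_of_le ((le_max_right _ _).trans h1)⟩

/-- Every inner reduct of `t` is beyond `v`, or small, or has a root step into a class at
distance less than `m` from `v`. -/
def Cond (R : Set (Rule F ar)) (b v : Tm F ar) (m : ℕ) (t : Tm F ar) : Prop :=
  ∀ x, InSteps R t x → Steps R v x ∨ Below R x b ∨
    ∃ y n, RootStep R x y ∧ n < m ∧ reach R b v n (κ R b y)

/-- The available values. -/
def AV (R : Set (Rule F ar)) (b v : Tm F ar) (Ω : Ordinal.{u}) (w : Tm F ar) (α : Ordinal.{u}) :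
    Prop :=
  (Steps R v w ∧ α = 0) ∨
  (∃ c v', Below R c b ∧ Steps R c w ∧ Steps R c v' ∧ Steps R v v' ∧ α = 1 + RK R c v' w) ∨
  (∃ (m : ℕ) (c t : Tm F ar), Steps R b c ∧ InSteps R c t ∧ InSteps R c w ∧ Cond R b v m t ∧
    α = Ω * ((m + 1 : ℕ) : Ordinal.{u}) + (1 + IK R c t w))

section

variable {R : Set (Rule F ar)} {b : Tm F ar} (h : Cx R b)

include h

theorem Cx.av_small {v w : Tm F ar} (hv : Steps R b v) (hw : Steps R b w) (hw' : Below R w b)
    {Ω : Ordinal.{u}} (hΩ : ∀ c v w, 1 + RK R c v w < Ω ∧ 1 + IK R c v w < Ω) :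
    ∃ α, AV R b v Ω w α ∧ α < Ω := by
  obtain ⟨e, h1, h2⟩ := h.join_all hv hw
  exact ⟨_, Or.inr (Or.inl ⟨w, e, hw', ReflTransGen.refl, h1, h2, rfl⟩), (hΩ _ _ _).1⟩

theorem Cx.av_reach {v w : Tm F ar} (hv : Steps R b v) (hw : Steps R b w)
    {Ω : Ordinal.{u}} (hΩ : ∀ c v w, 1 + RK R c v w < Ω ∧ 1 + IK R c v w < Ω) {n : ℕ}
    (hn : reach R b v n (κ R b w)) :
    ∃ α, AV R b v Ω w α ∧ α < Ω * ((n + 2 : ℕ) : Ordinal.{u}) := by
  classical
  have hex : ∃ d, reach R b v d (κ R b w) := ⟨n, hn⟩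
  have hd : reach R b v (Nat.find hex) (κ R b w) := Nat.find_spec hex
  have hdn : Nat.find hex ≤ n := Nat.find_min' hex hn
  have hmin : ∀ m, m < Nat.find hex → ¬ reach R b v m (κ R b w) := fun m hm => Nat.find_min hex hm
  generalize Nat.find hex = d at hd hdn hmin
  have hC : ∃ t, InSteps R w t ∧ Cond R b v d t := by
    cases d with
    | zero =>
      obtain ⟨v', h1, h2⟩ := path hv hd
      obtain ⟨z, t, h3, h4, h5⟩ := (h.κ_eq (hv.trans h1) hw).1 h2
      refine ⟨t, h4, fun x hx => ?_⟩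
      rcases h5 with rfl | ⟨_, h6, _⟩
      · exact Or.inl (h1.trans (InSteps.steps (h3.trans hx)))
      · exact Or.inr (Or.inl (h6.predU (InSteps.steps hx)))
    | succ d =>
      obtain ⟨K, h1, h2⟩ := hd
      obtain ⟨w', y, h3, h4, rfl⟩ := h1.2.2 w hw rfl
      have hbw' : Steps R b w' := hw.trans (InSteps.steps h3)
      have hby : Steps R b y := hbw'.tail h4.step
      have kw := h.κ_in hw h3
      have h5 : ¬ CT R b (κ R b y) (κ R b w') := by
        intro h6
        obtain ⟨m, hm, hm'⟩ := h.reach_mono d h2 h6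
        rw [← kw] at hm'
        exact hmin m (by omega) hm'
      obtain ⟨t₀, h6, h7, h8⟩ := h.D2 hbw' hby (Or.inl h4) (by rw [← kw]; exact h1.1) h5
      obtain ⟨z, t, h9, h10, h11⟩ := (h.κ_eq h6 hw).1 (h7.trans kw.symm)
      refine ⟨t, h10, fun x hx => ?_⟩
      rcases h11 with rfl | ⟨_, h12, _⟩
      · obtain ⟨y', h13, h14⟩ := h8 x (h9.trans hx)
        exact Or.inr (Or.inr ⟨y', d, h13, Nat.lt_succ_self d, by rw [h14]; exact h2⟩)
      · exact Or.inr (Or.inl (h12.predU (InSteps.steps hx)))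
  obtain ⟨t, h1, h2⟩ := hC
  refine ⟨_, Or.inr (Or.inr ⟨d, w, t, hw, h1, ReflTransGen.refl, h2, rfl⟩), ?_⟩
  have h3 : Ω * ((d + 1 : ℕ) : Ordinal.{u}) + (1 + IK R w t w) <
      Ω * ((d + 1 : ℕ) : Ordinal.{u}) + Ω := by
    exact (add_lt_add_iff_left _).2 (hΩ _ _ _).2
  refine h3.trans_le ?_
  have h4 : Ω * ((d + 1 : ℕ) : Ordinal.{u}) + Ω = Ω * ((d + 2 : ℕ) : Ordinal.{u}) := by
    have : ((d + 2 : ℕ) : Ordinal.{u}) = ((d + 1 : ℕ) : Ordinal.{u}) + 1 := by push_cast; rw [add_assoc, one_add_one_eq_two]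
    rw [this, mul_add, mul_one]
  rw [h4]
  exact mul_le_mul_right (by exact_mod_cast (by omega : d + 2 ≤ n + 2)) _

/-- The main induction step. -/
theorem Cx.isRank {v : Tm F ar} (hv : Steps R b v) : ∃ ρ, IsRank R b v ρ := by
  classical
  obtain ⟨Ω, hΩ⟩ := exists_bound (fun c v w => 1 + RK R c v w) (fun c v w => 1 + IK R c v w)
  let ρ : Tm F ar → Ordinal.{u} := fun w => sInf {α | AV R b v Ω w α}
  have hle : ∀ {w α}, AV R b v Ω w α → ρ w ≤ α := fun hα => csInf_le' hα
  have hmem : ∀ {w}, Steps R b w → AV R b v Ω w (ρ w) := by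
    intro w hw
    obtain ⟨n, hn⟩ := h.reach_all hv hw
    obtain ⟨α, hα, _⟩ := h.av_reach hv hw hΩ hn
    exact csInf_mem (s := {α | AV R b v Ω w α}) ⟨α, hα⟩
  have hpos : ∀ α : Ordinal.{u}, (1 + α : Ordinal.{u}) ≠ 0 := fun α h1 =>
    absurd (Ordinal.add_eq_zero_iff.1 h1).1 one_ne_zero
  have hzero : ∀ w, Steps R b w → (ρ w = 0 ↔ Steps R v w) := by
    intro w hw
    constructor
    · intro h0
      rcases hmem hw with ⟨h1, _⟩ | ⟨c, v', _, _, _, _, h1⟩ | ⟨m, c, t, _, _, _, _, h1⟩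
      · exact h1
      · rw [h0] at h1
        exact (hpos _ h1.symm).elim
      · rw [h0] at h1
        exact (hpos _ (Ordinal.add_eq_zero_iff.1 h1.symm).2).elim
    · intro h1
      exact le_antisymm (hle (Or.inl ⟨h1, rfl⟩)) zero_le
  refine ⟨ρ, hzero, fun P τ hP hb h0 => ?_⟩
  have hnz : ¬ Steps R v (P.subst τ) := fun h1 => h0 ((hzero _ hb).2 h1)
  rcases hmem hb with ⟨h1, _⟩ | ⟨c, v', h1, h2, h3, h4, h5⟩ | ⟨m, c, t, h1, h2, h3, h4, h5⟩
  · exact (hnz h1).elim
  · have hr := RK_spec (h.good c h1) h3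
    have hg : RK R c v' (P.subst τ) ≠ 0 := fun hg => hnz (h4.trans ((hr.zero _ h2).1 hg))
    rcases hr.alt P τ hP h2 hg with ⟨τ', h6, h7⟩ | ⟨h6, y, h7, h8⟩
    · refine Or.inl ⟨τ', h6, fun τ'' h8 => ?_⟩
      rw [h5]
      refine (hle (Or.inr (Or.inl ⟨c, v', h1, h2.trans (subst_steps fun x hx =>
        (h6 x hx).trans (h8 x hx)), h3, h4, rfl⟩))).trans_lt ?_
      exact (add_lt_add_iff_left _).2 (h7 τ'' h8)
    · refine Or.inr ⟨fun τ' h9 => ?_, y, h7, ?_⟩
      · rw [h5]
        refine (hle (Or.inr (Or.inl ⟨c, v', h1, h2.trans (subst_steps h9), h3, h4,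
          rfl⟩))).trans ?_
        exact (add_le_add_iff_left _).2 (h6 τ' h9)
      · rw [h5]
        refine (hle (Or.inr (Or.inl ⟨c, v', h1, h2.tail h7.step, h3, h4, rfl⟩))).trans_lt ?_
        exact (add_lt_add_iff_left _).2 h8
  · by_cases hPv : ∀ x, P ≠ Tm.var x
    · have hi := h.IK_spec h1 h2
      by_cases hg : IK R c t (P.subst τ) = 0
      · have h6 : InSteps R t (P.subst τ) := (hi.zero _ h3).1 hg
        rcases h4 _ h6 with h7 | h7 | ⟨y, n, h7, h8, h9⟩
        · exact (hnz h7).elim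
        · exfalso
          obtain ⟨α, hα, hα'⟩ := h.av_small hv hb h7 hΩ
          have h10 : ρ (P.subst τ) < Ω := (hle hα).trans_lt hα'
          rw [h5] at h10
          have h11 : Ω ≤ Ω * ((m + 1 : ℕ) : Ordinal.{u}) := by
            calc Ω = Ω * 1 := (mul_one _).symm
              _ ≤ _ := mul_le_mul_right (by exact_mod_cast (by omega : 1 ≤ m + 1)) _
          exact absurd h10 (not_lt.2 (h11.trans (le_add_right le_rfl)))
        · right
          refine ⟨fun τ' h10 => ?_, y, ?_, ?_⟩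
          · have h11 : InSteps R (P.subst τ) (P.subst τ') := subst_insteps hPv h10
            rw [h5]
            refine (hle (Or.inr (Or.inr ⟨m, c, t, h1, h2, h3.trans h11, h4, rfl⟩))).trans ?_
            rw [hg, (hi.zero _ (h3.trans h11)).2 (h6.trans h11)]
          · cases P with
            | var x => exact (hPv x rfl).elim
            | app f a => exact NV.root h7
          · obtain ⟨α, hα, hα'⟩ := h.av_reach hv (hb.tail h7.step) hΩ h9
            rw [h5]
            refine ((hle hα).trans_lt hα').trans_le (le_trans ?_ (le_add_right le_rfl))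
            exact mul_le_mul_right (by exact_mod_cast (by omega : n + 2 ≤ m + 1)) _
      · rcases hi.alt P τ hP hPv h3 hg with ⟨τ', h6, h7⟩ | ⟨h6, y, h7, h8, h9⟩
        · refine Or.inl ⟨τ', h6, fun τ'' h8 => ?_⟩
          rw [h5]
          refine (hle (Or.inr (Or.inr ⟨m, c, t, h1, h2, h3.trans (subst_insteps hPv fun x hx =>
            (h6 x hx).trans (h8 x hx)), h4, rfl⟩))).trans_lt ?_
          exact (add_lt_add_iff_left _).2 ((add_lt_add_iff_left _).2 (h7 τ'' h8))
        · refine Or.inr ⟨fun τ' h10 => ?_, y, h7, ?_⟩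
          · rw [h5]
            refine (hle (Or.inr (Or.inr ⟨m, c, t, h1, h2, h3.trans (subst_insteps hPv h10), h4,
              rfl⟩))).trans ?_
            exact (add_le_add_iff_left _).2 ((add_le_add_iff_left _).2 (h6 τ' h10))
          · rw [h5]
            refine (hle (Or.inr (Or.inr ⟨m, c, t, h1, h2, h3.tail h8, h4, rfl⟩))).trans_lt ?_
            exact (add_lt_add_iff_left _).2 ((add_lt_add_iff_left _).2 h9)
    · push Not at hPv
      obtain ⟨x, rfl⟩ := hPv
      obtain ⟨e, h6, h7⟩ := h.join_all hv hb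
      refine Or.inl ⟨fun _ => e, fun y hy => ?_, fun τ'' h8 => ?_⟩
      · have hxy : x = y := by
          by_contra hxy
          simp [Tm.occ, hxy] at hy
        subst hxy
        exact h6
      · have h9 : Steps R e (τ'' x) := h8 x (by simp [Tm.occ])
        have h10 : ρ (τ'' x) = 0 := (hzero _ ((hb.trans h6).trans h9)).2 (h7.trans h9)
        simp only [Tm.subst_var] at h0 ⊢
        rw [h10]
        exact pos_iff_ne_zero.2 h0

end

/-- The main theorem: every term without infinite nesting is good. -/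
theorem good_of_acc {R : Set (Rule F ar)} (hR : IsTRS R) (hL : LeftLinear R) (hC : CondP R)
    {b : Tm F ar} (hb : Acc (Below R) b) : Good R b := by
  induction hb with
  | intro b _ ih => exact fun v hv => (Cx.mk hR hL hC ih).isRank hv

/-- The global version. -/
theorem confluent_of_below {R : Set (Rule F ar)} (hR : IsTRS R) (hL : LeftLinear R)
    (hC : CondP R) (hw : WellFounded (Below R)) : Confluent R :=
  fun a _ _ h1 h2 => (good_of_acc hR hL hC (hw.apply a)).join h1 h2

end Pool.Agent.Work.MP_d87e04_lc.PC
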